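import Pool.Agent.H842R2.Artin

/-!
# Artin induction for `K₁(R[G])`, `R` a commutative ring in which all integers are invertible

(the proof is that of `Pool.Agent.H842R2.Artin` for the integers)
-/

open Matrix

namespace Pool.Agent.Y69.TK.ArtK

open H970SH H842

section

variable {R : Type} [CommRing R] {G : Type} [Group G]

/-- the representation `g ↦ g ⊗ [g]` -/
noncomputable def thHom (G X : Type) [Group G] [Fintype X] [DecidableEq X] [MulAction G X] :
    G →* Matrix X X (MonoidAlgebra R G) where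
  toFun g := Matrix.of fun x y => if g • y = x then MonoidAlgebra.of R G g else 0
  map_one' := by
    ext x y : 2
    simp only [Matrix.of_apply, one_smul, map_one, Matrix.one_apply, eq_comm]
  map_mul' g h := by
    ext x z : 2
    rw [Matrix.mul_apply, Finset.sum_eq_single (h • z)]
    · simp only [Matrix.of_apply, map_mul, mul_smul]
      split_ifs <;> simp
    · intro b _ hb
      simp [Ne.symm hb]
    · simp

/-- ring homomorphism version -/
noncomputable def th (G X : Type) [Group G] [Fintype X] [DecidableEq X] [MulAction G X] :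
    MonoidAlgebra R G →+* Matrix X X (MonoidAlgebra R G) :=
  (MonoidAlgebra.lift R (Matrix X X (MonoidAlgebra R G)) G (thHom G X)).toRingHom

theorem th_of (X : Type) [Fintype X] [DecidableEq X] [MulAction G X] (g : G) (x y : X) :
    th G X (MonoidAlgebra.of R G g) x y = if g • y = x then MonoidAlgebra.of R G g else 0 := by
  have : th G X (MonoidAlgebra.of R G g) = thHom G X g := by
    show (MonoidAlgebra.lift R (Matrix X X (MonoidAlgebra R G)) G (thHom G X)) _ = _
    rw [MonoidAlgebra.lift_of]
  rw [this]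
  rfl

theorem th_single (X : Type) [Fintype X] [DecidableEq X] [MulAction G X] (g : G) (r : R)
    (x y : X) : th G X (MonoidAlgebra.single g r) x y =
      if g • y = x then MonoidAlgebra.single g r else 0 := by
  have h1 : (MonoidAlgebra.single g r : MonoidAlgebra R G) = r • MonoidAlgebra.of R G g := by
    rw [MonoidAlgebra.of_apply, MonoidAlgebra.smul_single, smul_eq_mul, mul_one]
  have h2 : th G X (r • MonoidAlgebra.of R G g) = r • th G X (MonoidAlgebra.of R G g) :=
    map_smul (MonoidAlgebra.lift R (Matrix X X (MonoidAlgebra R G)) G (thHom G X)) _ _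
  rw [h1, h2, Matrix.smul_apply, th_of]
  split_ifs
  · rfl
  · exact smul_zero _

/-- two additive maps from the group ring agreeing on group elements agree -/
theorem zg_ext {M : Type} [AddCommGroup M] (f g : MonoidAlgebra R G →+ M)
    (h : ∀ (a : G) (r : R), f (MonoidAlgebra.single a r) = g (MonoidAlgebra.single a r)) : f = g :=
  MonoidAlgebra.addMonoidHom_ext h

theorem th_intertwine {X Y : Type} [Fintype X] [DecidableEq X] [MulAction G X] [Fintype Y]
    [DecidableEq Y] [MulAction G Y] (P : Matrix X Y ℤ) (hP : ∀ (g : G) x y, P (g • x) (g • y) = P x y)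
    (a : MonoidAlgebra R G) (x : X) (y : Y) :
    ∑ z, th G X a x z * (P z y : MonoidAlgebra R G) = ∑ z, (P x z : MonoidAlgebra R G) * th G Y a z y := by
  let f : MonoidAlgebra R G →+ MonoidAlgebra R G :=
    { toFun := fun a => ∑ z, th G X a x z * (P z y : MonoidAlgebra R G)
      map_zero' := by simp
      map_add' := by intro a b; simp [add_mul, Finset.sum_add_distrib] }
  let g : MonoidAlgebra R G →+ MonoidAlgebra R G :=
    { toFun := fun a => ∑ z, (P x z : MonoidAlgebra R G) * th G Y a z y
      map_zero' := by simp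
      map_add' := by intro a b; simp [mul_add, Finset.sum_add_distrib] }
  have : f = g := by
    apply zg_ext
    intro b r
    show ∑ z, th G X _ x z * (P z y : MonoidAlgebra R G) = ∑ z, (P x z : MonoidAlgebra R G) * th G Y _ z y
    rw [Finset.sum_eq_single (b⁻¹ • x), Finset.sum_eq_single (b • y)]
    · rw [th_single, th_single, if_pos (smul_inv_smul _ _), if_pos rfl]
      have : P (b⁻¹ • x) y = P x (b • y) := by
        rw [← hP b, smul_inv_smul]
      rw [this, (Int.cast_commute _ _).eq]
    · intro z _ hz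
      rw [th_single, if_neg (Ne.symm hz), mul_zero]
    · simp
    · intro z _ hz
      rw [th_single, if_neg, zero_mul]
      intro h
      apply hz
      rw [← h, inv_smul_smul]
    · simp
  exact DFunLike.congr_fun this a


/-- the K-theoretic comparison -/
theorem cl_compare {α β : Type} [Fintype α] [DecidableEq α] [Fintype β] [DecidableEq β]
    (U : (Matrix α α (MonoidAlgebra R G))ˣ) (V : (Matrix β β (MonoidAlgebra R G))ˣ)
    (A : Matrix α β (MonoidAlgebra R G)) (A' : Matrix β α (MonoidAlgebra R G)) (δ : R)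
    (hδ : IsUnit δ)
    (h1 : A * A' = δ • (1 : Matrix α α (MonoidAlgebra R G)))
    (h2 : A' * A = δ • (1 : Matrix β β (MonoidAlgebra R G)))
    (h3 : (U : Matrix α α (MonoidAlgebra R G)) * A = A * (V : Matrix β β (MonoidAlgebra R G))) :
    cl U = cl V := by
  obtain ⟨d, rfl⟩ := hδ
  have h1' : A * (((d⁻¹ : Rˣ) : R) • A') = 1 := by
    rw [Matrix.mul_smul, h1, smul_smul, Units.inv_mul, one_smul]
  have h2' : (((d⁻¹ : Rˣ) : R) • A') * A = 1 := by
    rw [Matrix.smul_mul, h2, smul_smul, Units.inv_mul, one_smul]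
  generalize (((d⁻¹ : Rˣ) : R) • A') = B at h1' h2'
  apply cl_one_add_mul_comm A (((V : Matrix β β (MonoidAlgebra R G)) - 1) * B)
  · rw [← Matrix.mul_assoc, Matrix.mul_sub, ← h3, Matrix.mul_one, Matrix.sub_mul, Matrix.mul_assoc,
      h1', Matrix.mul_one]
    abel
  · rw [Matrix.mul_assoc, h2', Matrix.mul_one]
    abel

/-- the class of the twisted matrix -/
noncomputable def yy (X : Type) [MulAction G X] [Finite X] {ι : Type} [Fintype ι] [DecidableEq ι]
    (w : (Matrix ι ι (MonoidAlgebra R G))ˣ) : K1 (MonoidAlgebra R G) :=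
  letI := Fintype.ofFinite X
  letI := Classical.decEq X
  cl (blow (th G X) w)

theorem yy_eq (X : Type) [MulAction G X] [hF : Fintype X] [hD : DecidableEq X] {ι : Type} [Fintype ι]
    [DecidableEq ι] (w : (Matrix ι ι (MonoidAlgebra R G))ˣ) : yy X w = cl (blow (th G X) w) := by
  have key : ∀ (F F' : Fintype X) (D D' : DecidableEq X),
      (letI := F; letI := D; cl (blow (th G X) w)) =
      (letI := F'; letI := D'; cl (blow (th G X) w)) := by
    intro F F' D D'
    obtain rfl : F = F' := Subsingleton.elim _ _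
    obtain rfl : D = D' := Subsingleton.elim _ _
    rfl
  exact key _ _ _ _

theorem th_congr {X Y : Type} [Fintype X] [DecidableEq X] [MulAction G X] [Fintype Y]
    [DecidableEq Y] [MulAction G Y] (e : X → Y) (he : Function.Injective e)
    (h : ∀ (g : G) x, e (g • x) = g • e x) (a : MonoidAlgebra R G) (x x' : X) :
    th G X a x x' = th G Y a (e x) (e x') := by
  let f : MonoidAlgebra R G →+ MonoidAlgebra R G :=
    { toFun := fun a => th G X a x x'
      map_zero' := by simp
      map_add' := by intro a b; simp }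
  let g : MonoidAlgebra R G →+ MonoidAlgebra R G :=
    { toFun := fun a => th G Y a (e x) (e x')
      map_zero' := by simp
      map_add' := by intro a b; simp }
  have : f = g := by
    apply zg_ext
    intro b r
    show th G X _ x x' = th G Y _ (e x) (e x')
    rw [th_single, th_single, ← h]
    by_cases hx : b • x' = x
    · rw [if_pos hx, if_pos (congrArg e hx)]
    · rw [if_neg hx, if_neg (fun hh => hx (he hh))]
  exact DFunLike.congr_fun this a

theorem yy_congr {X Y : Type} [MulAction G X] [Finite X] [MulAction G Y] [Finite Y] {ι : Type}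
    [Fintype ι] [DecidableEq ι] (w : (Matrix ι ι (MonoidAlgebra R G))ˣ) (e : X ≃ Y)
    (h : ∀ (g : G) x, e (g • x) = g • e x) : yy X w = yy Y w := by
  classical
  have := Fintype.ofFinite X
  have := Fintype.ofFinite Y
  rw [yy_eq, yy_eq]
  apply cl_congr (Equiv.prodCongr (Equiv.refl ι) e)
  rintro ⟨i, x⟩ ⟨j, x'⟩
  rw [blow_apply, blow_apply]
  exact th_congr e e.injective h _ _ _

theorem th_sum_inl_inr {X Y : Type} [Fintype X] [DecidableEq X] [MulAction G X] [Fintype Y]
    [DecidableEq Y] [MulAction G Y] (a : MonoidAlgebra R G) (x : X) (y : Y) :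
    th G (X ⊕ Y) a (Sum.inl x) (Sum.inr y) = 0 ∧ th G (X ⊕ Y) a (Sum.inr y) (Sum.inl x) = 0 := by
  let f : MonoidAlgebra R G →+ MonoidAlgebra R G :=
    { toFun := fun a => th G (X ⊕ Y) a (Sum.inl x) (Sum.inr y)
      map_zero' := by simp
      map_add' := by intro a b; simp }
  let g : MonoidAlgebra R G →+ MonoidAlgebra R G :=
    { toFun := fun a => th G (X ⊕ Y) a (Sum.inr y) (Sum.inl x)
      map_zero' := by simp
      map_add' := by intro a b; simp }
  have h1 : f = 0 := by
    apply zg_ext
    intro b r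
    show th G (X ⊕ Y) _ (Sum.inl x) (Sum.inr y) = 0
    rw [th_single, if_neg]
    intro h
    cases h
  have h2 : g = 0 := by
    apply zg_ext
    intro b r
    show th G (X ⊕ Y) _ (Sum.inr y) (Sum.inl x) = 0
    rw [th_single, if_neg]
    intro h
    cases h
  exact ⟨DFunLike.congr_fun h1 a, DFunLike.congr_fun h2 a⟩

theorem yy_sum {X Y : Type} [MulAction G X] [Finite X] [MulAction G Y] [Finite Y] {ι : Type}
    [Fintype ι] [DecidableEq ι] (w : (Matrix ι ι (MonoidAlgebra R G))ˣ) :
    yy (X ⊕ Y) w = yy X w + yy Y w := by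
  classical
  have := Fintype.ofFinite X
  have := Fintype.ofFinite Y
  rw [yy_eq, yy_eq, yy_eq, ← cl_diagU]
  apply cl_congr (Equiv.prodSumDistrib ι X Y)
  rintro ⟨i, (x | x)⟩ ⟨j, (y | y)⟩
  · rw [blow_apply, diagU_val]
    simp only [Equiv.prodSumDistrib_apply_left, Matrix.fromBlocks_apply₁₁]
    rw [blow_apply]
    exact (th_congr (G := G) (Sum.inl : X → X ⊕ Y) Sum.inl_injective (fun _ _ => rfl) _ _ _).symm
  · rw [blow_apply, diagU_val]
    simp only [Equiv.prodSumDistrib_apply_left, Equiv.prodSumDistrib_apply_right,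
      Matrix.fromBlocks_apply₁₂]
    exact (th_sum_inl_inr _ _ _).1
  · rw [blow_apply, diagU_val]
    simp only [Equiv.prodSumDistrib_apply_left, Equiv.prodSumDistrib_apply_right,
      Matrix.fromBlocks_apply₂₁]
    exact (th_sum_inl_inr _ _ _).2
  · rw [blow_apply, diagU_val]
    simp only [Equiv.prodSumDistrib_apply_right, Matrix.fromBlocks_apply₂₂]
    rw [blow_apply]
    exact (th_congr (G := G) (Sum.inr : Y → X ⊕ Y) Sum.inr_injective (fun _ _ => rfl) _ _ _).symm

theorem yy_empty {X : Type} [MulAction G X] [Finite X] [IsEmpty X] {ι : Type}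
    [Fintype ι] [DecidableEq ι] (w : (Matrix ι ι (MonoidAlgebra R G))ˣ) : yy X w = 0 := by
  classical
  have := Fintype.ofFinite X
  rw [yy_eq]
  have : blow (th G X) w = 1 := by
    ext ⟨i, x⟩
    exact isEmptyElim x
  rw [this, cl_one]

/-- splitting off the first orbit -/
def splitFirst {n : ℕ} (B : Fin (n + 1) → Subgroup G) : XX B ≃ (G ⧸ B 0) ⊕ XX (fun i : Fin n => B i.succ) where
  toFun x := Fin.cases (motive := fun i => G ⧸ B i → (G ⧸ B 0) ⊕ XX (fun i : Fin n => B i.succ))
    (fun q => Sum.inl q) (fun i q => Sum.inr ⟨i, q⟩) x.1 x.2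
  invFun x := Sum.elim (fun q => ⟨0, q⟩) (fun q => ⟨q.1.succ, q.2⟩) x
  left_inv := by
    rintro ⟨i, q⟩
    induction i using Fin.cases with
    | zero => rfl
    | succ i => rfl
  right_inv := by
    rintro (q | ⟨i, q⟩) <;> rfl

theorem yy_XX [Finite G] {ι : Type} [Fintype ι] [DecidableEq ι] (w : (Matrix ι ι (MonoidAlgebra R G))ˣ) :
    ∀ (n : ℕ) (B : Fin n → Subgroup G), yy (XX B) w = ∑ i, yy (G ⧸ B i) w := by
  intro n
  induction n with
  | zero =>
    intro B
    rw [yy_empty]; simp
  | succ n ih =>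
    intro B
    rw [yy_congr w (splitFirst B), yy_sum, ih, Fin.sum_univ_succ]
    rintro g ⟨i, q⟩
    induction i using Fin.cases with
    | zero => rfl
    | succ i => rfl


theorem yy_point {X : Type} [MulAction G X] [Finite X] [Unique X] {ι : Type}
    [Fintype ι] [DecidableEq ι] (w : (Matrix ι ι (MonoidAlgebra R G))ˣ) : yy X w = cl w := by
  classical
  have := Fintype.ofFinite X
  rw [yy_eq]
  apply cl_congr (Equiv.prodUnique ι X)
  rintro ⟨i, x⟩ ⟨j, y⟩
  rw [blow_apply]
  have : ∀ a : MonoidAlgebra R G, th G X a x y = a := by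
    intro a
    let f : MonoidAlgebra R G →+ MonoidAlgebra R G :=
      { toFun := fun a => th G X a x y
        map_zero' := by simp
        map_add' := by intro a b; simp }
    have h1 : f = AddMonoidHom.id _ := by
      apply zg_ext
      intro b r
      show th G X _ x y = _
      rw [th_single, if_pos (Subsingleton.elim _ _)]
      rfl
    exact DFunLike.congr_fun h1 a
  exact this _

/-- comparison of two `G`-sets with isomorphic permutation representations -/
theorem yy_compare [Finite G] {X Y : Type} [MulAction G X] [Fintype X] [DecidableEq X] [MulAction G Y]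
    [Fintype Y] [DecidableEq Y] {ι : Type} [Fintype ι] [DecidableEq ι]
    (w : (Matrix ι ι (MonoidAlgebra R G))ˣ) (P : Matrix X Y ℤ) (Q : Matrix Y X ℤ) (δ : ℕ)
    (hδ : IsUnit (δ : R)) (h1 : P * Q = (δ : Matrix X X ℤ)) (h2 : Q * P = (δ : Matrix Y Y ℤ))
    (h3 : ∀ (g : G) x y, P (g • x) (g • y) = P x y) : yy X w = yy Y w := by
  rw [yy_eq, yy_eq]
  let A : Matrix (ι × X) (ι × Y) (MonoidAlgebra R G) :=
    Matrix.of fun p q => if p.1 = q.1 then ((P p.2 q.2 : ℤ) : MonoidAlgebra R G) else 0
  let A' : Matrix (ι × Y) (ι × X) (MonoidAlgebra R G) :=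
    Matrix.of fun p q => if p.1 = q.1 then ((Q p.2 q.2 : ℤ) : MonoidAlgebra R G) else 0
  have hd1 : ((δ : R) • (1 : Matrix (ι × X) (ι × X) (MonoidAlgebra R G))) = (δ : Matrix (ι × X) (ι × X) (MonoidAlgebra R G)) := by
    rw [Nat.cast_smul_eq_nsmul, nsmul_eq_mul, mul_one]
  have hd2 : ((δ : R) • (1 : Matrix (ι × Y) (ι × Y) (MonoidAlgebra R G))) = (δ : Matrix (ι × Y) (ι × Y) (MonoidAlgebra R G)) := by
    rw [Nat.cast_smul_eq_nsmul, nsmul_eq_mul, mul_one]
  apply cl_compare _ _ A A' (δ : R) hδ
  · rw [hd1]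
    ext ⟨i, x⟩ ⟨j, x'⟩ : 1
    rw [Matrix.mul_apply, Fintype.sum_prod_type]
    rw [Finset.sum_eq_single i]
    · simp only [A, A', Matrix.of_apply, if_true]
      have h4 := congrFun (congrFun h1 x) x'
      rw [Matrix.mul_apply] at h4
      by_cases hij : i = j
      · subst hij
        simp only [if_true]
        rw [show ∑ z, ((P x z : ℤ) : MonoidAlgebra R G) * ((Q z x' : ℤ) : MonoidAlgebra R G) =
          ((∑ z, P x z * Q z x' : ℤ) : MonoidAlgebra R G) by push_cast; rfl, h4]
        by_cases hx : x = x'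
        · subst hx; simp [Matrix.natCast_apply]
        · simp [Matrix.natCast_apply, hx]
      · simp [Matrix.natCast_apply, hij]
    · intro k _ hk
      simp [A, Ne.symm hk]
    · simp
  · rw [hd2]
    ext ⟨i, x⟩ ⟨j, x'⟩ : 1
    rw [Matrix.mul_apply, Fintype.sum_prod_type]
    rw [Finset.sum_eq_single i]
    · simp only [A, A', Matrix.of_apply, if_true]
      have h4 := congrFun (congrFun h2 x) x'
      rw [Matrix.mul_apply] at h4
      by_cases hij : i = j
      · subst hij
        simp only [if_true]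
        rw [show ∑ z, ((Q x z : ℤ) : MonoidAlgebra R G) * ((P z x' : ℤ) : MonoidAlgebra R G) =
          ((∑ z, Q x z * P z x' : ℤ) : MonoidAlgebra R G) by push_cast; rfl, h4]
        by_cases hx : x = x'
        · subst hx; simp [Matrix.natCast_apply]
        · simp [Matrix.natCast_apply, hx]
      · simp [Matrix.natCast_apply, hij]
    · intro k _ hk
      simp [A', Ne.symm hk]
    · simp
  · ext ⟨i, x⟩ ⟨j, y⟩ : 1
    rw [Matrix.mul_apply, Matrix.mul_apply, Fintype.sum_prod_type, Fintype.sum_prod_type,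
      Finset.sum_eq_single j, Finset.sum_eq_single i]
    · simp only [A, Matrix.of_apply, if_true, blow_apply]
      exact th_intertwine P h3 _ _ _
    · intro k _ hk
      simp [A, Ne.symm hk]
    · simp
    · intro k _ hk
      simp [A, hk]
    · simp

/-- the induced representation, with values in the group ring of the subgroup -/
noncomputable def psHom (C : Subgroup G) [Fintype (G ⧸ C)] [DecidableEq (G ⧸ C)] :
    G →* Matrix (G ⧸ C) (G ⧸ C) (MonoidAlgebra R C) where
  toFun g := Matrix.of fun x y => if h : g • y = x then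
    MonoidAlgebra.of R C ⟨(Quotient.out x)⁻¹ * (g * Quotient.out y), by
      rw [← QuotientGroup.eq, QuotientGroup.out_eq', ← smul_eq_mul, ← h]
      conv_lhs => rw [← QuotientGroup.out_eq' y]
      rfl⟩ else 0
  map_one' := by
    ext x y : 1
    simp only [Matrix.of_apply, one_smul, Matrix.one_apply, one_mul]
    by_cases h : x = y
    · subst h
      simp only [if_true, dite_true, inv_mul_cancel]
      exact (MonoidAlgebra.of R C).map_one
    · rw [if_neg h, dif_neg (Ne.symm h)]
  map_mul' g h := by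
    ext x z : 1
    rw [Matrix.mul_apply, Finset.sum_eq_single (h • z)]
    · simp only [Matrix.of_apply, dite_true]
      by_cases hx : g • h • z = x
      · rw [dif_pos (by rw [mul_smul]; exact hx), dif_pos hx, ← map_mul]
        refine congrArg _ (Subtype.ext ?_)
        simp only [Subgroup.coe_mul]
        group
      · rw [dif_neg (by rw [mul_smul]; exact hx), dif_neg hx, zero_mul]
    · intro b _ hb
      simp only [Matrix.of_apply]
      rw [dif_neg (Ne.symm hb : h • z ≠ b), mul_zero]
    · simp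

noncomputable def ps (C : Subgroup G) [Fintype (G ⧸ C)] [DecidableEq (G ⧸ C)] :
    MonoidAlgebra R G →+* Matrix (G ⧸ C) (G ⧸ C) (MonoidAlgebra R C) :=
  (MonoidAlgebra.lift R (Matrix (G ⧸ C) (G ⧸ C) (MonoidAlgebra R C)) G (psHom C)).toRingHom

theorem ps_of (C : Subgroup G) [Fintype (G ⧸ C)] [DecidableEq (G ⧸ C)] (g : G) :
    ps C (MonoidAlgebra.of R G g) = psHom C g := by
  show (MonoidAlgebra.lift R (Matrix (G ⧸ C) (G ⧸ C) (MonoidAlgebra R C)) G (psHom C)) _ = _
  rw [MonoidAlgebra.lift_of]

theorem ps_single (C : Subgroup G) [Fintype (G ⧸ C)] [DecidableEq (G ⧸ C)] (g : G) (r : R) :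
    ps C (MonoidAlgebra.single g r) = r • psHom C g := by
  have h1 : (MonoidAlgebra.single g r : MonoidAlgebra R G) = r • MonoidAlgebra.of R G g := by
    rw [MonoidAlgebra.of_apply, MonoidAlgebra.smul_single, smul_eq_mul, mul_one]
  have h2 : ps C (r • MonoidAlgebra.of R G g) = r • ps C (MonoidAlgebra.of R G g) :=
    map_smul (MonoidAlgebra.lift R (Matrix (G ⧸ C) (G ⧸ C) (MonoidAlgebra R C)) G (psHom C)) _ _
  rw [h1, h2, ps_of]

theorem ps_th (C : Subgroup G) [Fintype (G ⧸ C)] [DecidableEq (G ⧸ C)] (a : MonoidAlgebra R G)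
    (x y : G ⧸ C) :
    MonoidAlgebra.of R G (Quotient.out x) *
      MonoidAlgebra.mapDomainRingHom R C.subtype (ps C a x y) =
    th G (G ⧸ C) a x y * MonoidAlgebra.of R G (Quotient.out y) := by
  let f : MonoidAlgebra R G →+ MonoidAlgebra R G :=
    { toFun := fun a => MonoidAlgebra.of R G (Quotient.out x) *
        MonoidAlgebra.mapDomainRingHom R C.subtype (ps C a x y)
      map_zero' := by simp
      map_add' := by
        intro a b
        rw [map_add, Matrix.add_apply, map_add, mul_add] }
  let g : MonoidAlgebra R G →+ MonoidAlgebra R G :=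
    { toFun := fun a => th G (G ⧸ C) a x y * MonoidAlgebra.of R G (Quotient.out y)
      map_zero' := by simp
      map_add' := by intro a b; simp [add_mul] }
  have : f = g := by
    apply zg_ext
    intro b r
    show MonoidAlgebra.of R G (Quotient.out x) *
      MonoidAlgebra.mapDomainRingHom R C.subtype (ps C (MonoidAlgebra.single b r) x y) = th G (G ⧸ C) _ x y * _
    rw [ps_single, th_single, Matrix.smul_apply]
    simp only [psHom, MonoidHom.coe_mk, OneHom.coe_mk, Matrix.of_apply]
    by_cases h : b • y = x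
    · rw [dif_pos h, if_pos h]
      simp only [MonoidAlgebra.of_apply, MonoidAlgebra.smul_single,
        MonoidAlgebra.mapDomainRingHom_apply,
        MonoidAlgebra.mapDomain_single, MonoidAlgebra.single_mul_single, Subgroup.coe_subtype,
        smul_eq_mul, mul_one, one_mul]
      congr 1
      · group
    · rw [dif_neg h, if_neg h]
      simp
  exact DFunLike.congr_fun this a


/-- the artinian closure group -/
def cyc (R : Type) [CommRing R] (G : Type) [Group G] : AddSubgroup (K1 (MonoidAlgebra R G)) :=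
  AddSubgroup.closure
      {y | ∃ (C : Subgroup G) (_ : IsCyclic C) (n : ℕ)
        (M : (Matrix (Fin n) (Fin n) (MonoidAlgebra R C))ˣ),
        y = cl (mapUnit (MonoidAlgebra.mapDomainRingHom R C.subtype) M)}

theorem yy_induced [Finite G] (C : Subgroup G) {ι : Type} [Fintype ι] [DecidableEq ι]
    (w : (Matrix ι ι (MonoidAlgebra R G))ˣ) : ∃ (n : ℕ)
      (M : (Matrix (Fin n) (Fin n) (MonoidAlgebra R C))ˣ),
      yy (G ⧸ C) w = cl (mapUnit (MonoidAlgebra.mapDomainRingHom R C.subtype) M) := by
  classical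
  have := Fintype.ofFinite (G ⧸ C)
  rw [yy_eq]
  refine ⟨Fintype.card (ι × (G ⧸ C)), reindexUnit (Fintype.equivFin _) (blow (ps C) w), ?_⟩
  rw [mapUnit_reindex, cl_reindex]
  -- the diagonal matrix of representatives
  let D : (Matrix (ι × (G ⧸ C)) (ι × (G ⧸ C)) (MonoidAlgebra R G))ˣ :=
    { val := Matrix.diagonal fun p => MonoidAlgebra.of R G (Quotient.out p.2)
      inv := Matrix.diagonal fun p => MonoidAlgebra.of R G (Quotient.out p.2)⁻¹
      val_inv := by
        rw [Matrix.diagonal_mul_diagonal]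
        simp only [← map_mul, mul_inv_cancel, map_one, Matrix.diagonal_one]
      inv_val := by
        rw [Matrix.diagonal_mul_diagonal]
        simp only [← map_mul, inv_mul_cancel, map_one, Matrix.diagonal_one] }
  have h : D * mapUnit (MonoidAlgebra.mapDomainRingHom R C.subtype) (blow (ps C) w) =
      blow (th G (G ⧸ C)) w * D := by
    apply Units.ext
    rw [Units.val_mul, Units.val_mul]
    show Matrix.diagonal _ * _ = _ * Matrix.diagonal _
    ext ⟨i, x⟩ ⟨j, y⟩ : 1
    rw [Matrix.diagonal_mul, Matrix.mul_diagonal, mapUnit_val, Matrix.map_apply, blow_apply, blow_apply]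
    exact ps_th C _ _ _
  have h2 := congrArg cl h
  rw [cl_mul, cl_mul] at h2
  have h3 : cl D + cl (mapUnit (MonoidAlgebra.mapDomainRingHom R C.subtype) (blow (ps C) w)) =
    cl D + cl (blow (th G (G ⧸ C)) w) := by rw [h2, add_comm]
  exact (add_left_cancel h3).symm

theorem yy_mem_cyc [Finite G] (C : Subgroup G) (hC : IsCyclic C) {ι : Type} [Fintype ι] [DecidableEq ι]
    (w : (Matrix ι ι (MonoidAlgebra R G))ˣ) : yy (G ⧸ C) w ∈ cyc R G := by
  obtain ⟨n, M, h⟩ := yy_induced C w
  rw [h]
  exact AddSubgroup.subset_closure ⟨C, hC, n, M, rfl⟩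

theorem list_mem_cyc [Finite G] {ι : Type} [Fintype ι] [DecidableEq ι]
    (w : (Matrix ι ι (MonoidAlgebra R G))ˣ) (l : List (Subgroup G)) (hl : ∀ C ∈ l, IsCyclic C) :
    (l.map fun C => yy (G ⧸ C) w).sum ∈ cyc R G := by
  apply AddSubgroup.list_sum_mem
  intro y hy
  obtain ⟨C, hC, rfl⟩ := List.mem_map.1 hy
  exact yy_mem_cyc C (hl C hC) w

/-- Artin induction for `K₁(R[G])`, where all positive integers are invertible in `R`. -/
theorem artin (hR : ∀ n : ℕ, 0 < n → IsUnit (n : R)) {G : Type} [Group G] [Finite G]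
    (x : K1 (MonoidAlgebra R G)) :
    ∃ k : ℕ, 0 < k ∧ k • x ∈ AddSubgroup.closure
      {y | ∃ (C : Subgroup G) (_ : IsCyclic C) (n : ℕ)
        (M : (Matrix (Fin n) (Fin n) (MonoidAlgebra R C))ˣ),
        y = cl (mapUnit (MonoidAlgebra.mapDomainRingHom R C.subtype) M)} := by
  obtain ⟨N, w, rfl⟩ := K1_exists x
  obtain ⟨n, m, B, B', s, hs, ⟨l₁, l₂, hl₁, hl₂, hB, hB'⟩, f1, d1, f2, d2, P, Q, δ, hδ, h1, h2, h3⟩ :=
    artin_matrix G
  have h := yy_compare w P Q δ (hR δ hδ) h1 h2 h3
  refine ⟨s, hs, ?_⟩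
  have e1 : ∀ (n : ℕ) (B : Fin n → Subgroup G), yy (XX B) w =
      ((List.ofFn B).map fun C => yy (G ⧸ C) w).sum := by
    intro n B
    rw [yy_XX, List.map_ofFn, List.sum_ofFn]
    rfl
  rw [e1, e1, hB, hB'] at h
  rw [List.map_append, List.sum_append, List.map_replicate, List.sum_replicate] at h
  have e2 : yy (G ⧸ (⊤ : Subgroup G)) w = cl w := by
    have : Subsingleton (G ⧸ (⊤ : Subgroup G)) := QuotientGroup.subsingleton_quotient_top
    let _ : Unique (G ⧸ (⊤ : Subgroup G)) := ⟨⟨((1 : G) : G ⧸ (⊤ : Subgroup G))⟩, fun _ => Subsingleton.elim _ _⟩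
    exact yy_point w
  rw [e2] at h
  have h4 : s • cl w = (l₂.map fun C => yy (G ⧸ C) w).sum - (l₁.map fun C => yy (G ⧸ C) w).sum := by
    rw [← h]
    abel
  rw [h4]
  exact AddSubgroup.sub_mem _ (list_mem_cyc w l₂ hl₂) (list_mem_cyc w l₁ hl₁)

end

end Pool.Agent.Y69.TK.ArtK
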