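import Pool.Agent.Y69.TK.Emb

set_option autoImplicit false
set_option linter.unusedSectionVars false

namespace Pool.Agent.Y69.TK.Emb

/-- **Embedding theorem.** A finitely generated domain of characteristic zero embeds in `ℤ_p` for
arbitrarily large primes `p` which are congruent to `1` modulo a given number. -/
theorem exists_embedding {A : Type} [CommRing A] [IsDomain A] [CharZero A]
    [Algebra.FiniteType ℤ A] (E B : ℕ) (hE : 0 < E) :
    ∃ (p : ℕ) (_ : Fact p.Prime), B < p ∧ E ∣ p - 1 ∧ ∃ ψ : A →+* ℤ_[p], Function.Injective ψ := by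
  classical
  obtain ⟨d, t, ht⟩ : ∃ (d : ℕ) (t : Fin d → A), IsTranscendenceBasis ℤ t := by
    obtain ⟨ι, v, hv⟩ := exists_isTranscendenceBasis' ℤ A
    have hfin : Finite ι := by
      have h1 := trdeg_lt_aleph0_of_finiteType (R := ℤ) (S := A)
      have h2 := hv.lift_cardinalMk_eq_trdeg
      rw [← Cardinal.mk_lt_aleph0_iff, ← Cardinal.lift_lt_aleph0, h2, Cardinal.lift_lt_aleph0]
      exact h1
    have hft := Fintype.ofFinite ι
    let eq := Fintype.equivFin ι
    exact ⟨_, v ∘ eq.symm, hv.comp_equiv eq.symm⟩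
  let _ : Algebra (MvPolynomial (Fin d) ℤ) A := (MvPolynomial.aeval t : _ →ₐ[ℤ] A).toRingHom.toAlgebra
  have halgmap : algebraMap (MvPolynomial (Fin d) ℤ) A = (MvPolynomial.aeval t : _ →ₐ[ℤ] A).toRingHom := rfl
  have hinj : Function.Injective (algebraMap (MvPolynomial (Fin d) ℤ) A) := ht.1
  have h1 : FaithfulSMul (MvPolynomial (Fin d) ℤ) A := (faithfulSMul_iff_algebraMap_injective _ _).2 hinj
  have h2 : IsScalarTower ℤ (MvPolynomial (Fin d) ℤ) A := IsScalarTower.of_algebraMap_eq' (Subsingleton.elim _ _)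
  have h3 : Algebra.FiniteType (MvPolynomial (Fin d) ℤ) A :=
    Algebra.FiniteType.of_restrictScalars_finiteType ℤ _ _
  have h4 : Algebra.IsAlgebraic (MvPolynomial (Fin d) ℤ) A := alg_of_basis t ht halgmap
  have h5 : CharZero (MvPolynomial (Fin d) ℤ) := inferInstance
  obtain ⟨S, hS⟩ := (Algebra.FiniteType.out (R := ℤ) (A := A))
  have h6 : FaithfulSMul (MvPolynomial (Fin d) ℤ) (FractionRing A) := by
    rw [faithfulSMul_iff_algebraMap_injective,
      IsScalarTower.algebraMap_eq (MvPolynomial (Fin d) ℤ) A (FractionRing A)]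
    exact (IsFractionRing.injective A (FractionRing A)).comp hinj
  let _ := FractionRing.liftAlgebra (MvPolynomial (Fin d) ℤ) (FractionRing A)
  have h7 := FractionRing.isScalarTower_liftAlgebra (MvPolynomial (Fin d) ℤ) (FractionRing A)
  obtain ⟨θ, f, h, hf0, hf1, hh, hG, hlift⟩ := data_aux (R := MvPolynomial (Fin d) ℤ) (A := A)
    (K := FractionRing (MvPolynomial (Fin d) ℤ)) (L := FractionRing A) S
  have hev : ∀ (F : Polynomial (MvPolynomial (Fin d) ℤ)), ev2 F t θ = Polynomial.aeval θ F :=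
    fun F => rfl
  -- a point over a number field
  obtain ⟨Ω, iΩ, nΩ, ρ, hρ⟩ := exists_number_point (Polynomial.aeval θ (Polynomial.derivative f) * algebraMap _ A h)
    (mul_ne_zero hf1 (by rw [Ne, map_eq_zero_iff _ hinj]; exact hh))
  rw [map_mul] at hρ
  have hx0 : ev2 f (fun i => ρ (t i)) (ρ θ) = 0 := by
    rw [← map_ev2, hev, hf0, map_zero]
  have hx1 : ev2 (Polynomial.derivative f) (fun i => ρ (t i)) (ρ θ) ≠ 0 := by
    rw [← map_ev2, hev]
    exact left_ne_zero_of_mul hρ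
  have hx2 : MvPolynomial.aeval (fun i => ρ (t i)) h ≠ 0 := by
    rw [← map_aeval_int]
    exact right_ne_zero_of_mul hρ
  let y : Fin d ⊕ Fin 3 → Ω := Sum.elim (fun i => ρ (t i)) ![ρ θ,
    (MvPolynomial.aeval (fun i => ρ (t i)) h)⁻¹,
    (ev2 (Polynomial.derivative f) (fun i => ρ (t i)) (ρ θ))⁻¹]
  obtain ⟨p, hp, hpB, hpk, z', hz'⟩ := exists_prime_point Ω y E B hE
  -- a point modulo `p`
  let cp : Fin d → ZMod p := fun i => z' (Sum.inl i)
  let zp : ZMod p := z' (Sum.inr 0)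
  let Xl : Fin d → MvPolynomial (Fin d ⊕ Fin 3) ℤ := fun i => MvPolynomial.X (Sum.inl i)
  let Xr : Fin 3 → MvPolynomial (Fin d ⊕ Fin 3) ℤ := fun i => MvPolynomial.X (Sum.inr i)
  have hz2 : ∀ P : MvPolynomial (Fin d ⊕ Fin 3) ℤ, MvPolynomial.aeval y P = 0 →
      MvPolynomial.aeval z' P = 0 := hz'
  have hev1 : ∀ F : Polynomial (MvPolynomial (Fin d) ℤ),
      MvPolynomial.aeval y (ev2 F Xl (Xr 0)) = ev2 F (fun i => ρ (t i)) (ρ θ) := by
    intro F
    have h8 := map_ev2 (MvPolynomial.aeval y : _ →ₐ[ℤ] Ω).toRingHom F Xl (Xr 0)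
    refine h8.trans ?_
    congr 1
    · funext i
      exact MvPolynomial.aeval_X _ _
    · exact MvPolynomial.aeval_X _ _
  have hev2 : ∀ F : Polynomial (MvPolynomial (Fin d) ℤ),
      MvPolynomial.aeval z' (ev2 F Xl (Xr 0)) = ev2 F cp zp := by
    intro F
    have h8 := map_ev2 (MvPolynomial.aeval z' : _ →ₐ[ℤ] ZMod p).toRingHom F Xl (Xr 0)
    refine h8.trans ?_
    congr 1
    · funext i
      exact MvPolynomial.aeval_X _ _
    · exact MvPolynomial.aeval_X _ _
  have hp0 : ev2 f cp zp = 0 := by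
    rw [← hev2]
    apply hz2
    rw [hev1, hx0]
  have hp1 : ev2 (Polynomial.derivative f) cp zp ≠ 0 := by
    have h8 := hz2 (ev2 (Polynomial.derivative f) Xl (Xr 0) * Xr 2 - 1) (by
      rw [map_sub, map_mul, hev1, map_one, MvPolynomial.aeval_X]
      change _ * (ev2 (Polynomial.derivative f) (fun i => ρ (t i)) (ρ θ))⁻¹ - 1 = 0
      rw [mul_inv_cancel₀ hx1, sub_self])
    rw [map_sub, map_mul, hev2, map_one] at h8
    intro h9
    rw [h9, zero_mul, zero_sub] at h8
    exact one_ne_zero (neg_eq_zero.1 h8)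
  have hCh : ∀ {R : Type} [CommRing R] (x : Fin d → R) (w : R),
      ev2 (Polynomial.C h) x w = MvPolynomial.aeval x h := by
    intro R _ x w
    unfold ev2
    rw [Polynomial.eval₂_C]
    rfl
  have hp2 : MvPolynomial.aeval cp h ≠ 0 := by
    have h8 := hz2 (ev2 (Polynomial.C h) Xl (Xr 0) * Xr 1 - 1) (by
      rw [map_sub, map_mul, hev1, map_one, MvPolynomial.aeval_X, hCh]
      change _ * (MvPolynomial.aeval (fun i => ρ (t i)) h)⁻¹ - 1 = 0
      rw [mul_inv_cancel₀ hx2, sub_self])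
    rw [map_sub, map_mul, hev2, map_one, hCh] at h8
    intro h9
    rw [h9, zero_mul, zero_sub] at h8
    exact one_ne_zero (neg_eq_zero.1 h8)
  -- the `p`-adic point
  obtain ⟨τ, hτ, hτi⟩ := exists_algInd_lift p cp
  obtain ⟨w, hw⟩ := hensel_step f τ cp hτ zp hp0 hp1
  let φ0 : MvPolynomial (Fin d) ℤ →+* ℤ_[p] := (MvPolynomial.aeval τ : _ →ₐ[ℤ] ℤ_[p]).toRingHom
  let φ : MvPolynomial (Fin d) ℤ →+* ℚ_[p] := (PadicInt.Coe.ringHom).comp φ0
  have hφinj : Function.Injective φ := by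
    rw [injective_iff_map_eq_zero]
    intro P hP
    apply hτi
    exact Subtype.ext hP
  have hevφ : ∀ F : Polynomial (MvPolynomial (Fin d) ℤ),
      F.eval₂ φ (w : ℚ_[p]) = ((ev2 F τ w : ℤ_[p]) : ℚ_[p]) := by
    intro F
    change _ = PadicInt.Coe.ringHom (F.eval₂ φ0 w)
    rw [Polynomial.hom_eval₂]
    rfl
  obtain ⟨ψ, hψi, hψr, hψθ⟩ := hlift ℚ_[p] φ hφinj w (by rw [hevφ, hw]; rfl)
  have hψG : ∀ G : Polynomial (MvPolynomial (Fin d) ℤ),
      ψ (Polynomial.aeval θ G) = ((ev2 G τ w : ℤ_[p]) : ℚ_[p]) := by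
    intro G
    rw [← hevφ, Polynomial.aeval_def, Polynomial.hom_eval₂, hψθ]
    congr 1
    ext r
    · simp
    · exact hψr _
  have hunit : IsUnit (φ0 h) := by
    apply isUnit_of_toZMod
    change PadicInt.toZMod (MvPolynomial.aeval τ h) ≠ 0
    rw [map_aeval_int]
    simp only [hτ]
    exact hp2
  obtain ⟨u, hu⟩ := hunit
  have hmemS : ∀ a ∈ S, ψ a ∈ PadicInt.subring p := by
    intro a ha
    obtain ⟨G, hG⟩ := hG a ha
    have h8 := congrArg ψ hG
    rw [hψG, Algebra.smul_def, map_mul, hψr] at h8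
    have h9 : ψ a = (((u⁻¹ : ℤ_[p]ˣ) : ℤ_[p]) * (ev2 G τ w) : ℤ_[p]) := by
      rw [PadicInt.coe_mul, ← h8]
      have h10 : φ h = ((u : ℤ_[p]) : ℚ_[p]) := by
        rw [hu]; rfl
      rw [h10, ← mul_assoc, ← PadicInt.coe_mul, Units.inv_mul, PadicInt.coe_one, one_mul]
    rw [h9]
    exact (((u⁻¹ : ℤ_[p]ˣ) : ℤ_[p]) * (ev2 G τ w) : ℤ_[p]).2
  have hmem : ∀ a, ψ a ∈ PadicInt.subring p := by
    intro a
    have h8 : a ∈ Algebra.adjoin ℤ (S : Set A) := by rw [hS]; exact Algebra.mem_top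
    induction h8 using Algebra.adjoin_induction with
    | mem x hx => exact hmemS x hx
    | algebraMap r =>
      rw [algebraMap_int_eq, eq_intCast, map_intCast]
      exact intCast_mem _ r
    | add x y _ _ hx hy => rw [map_add]; exact add_mem hx hy
    | mul x y _ _ hx hy => rw [map_mul]; exact mul_mem hx hy
  refine ⟨p, hp, hpB, hpk, ψ.codRestrict (PadicInt.subring p) hmem, ?_⟩
  intro a b hab
  exact hψi (congrArg Subtype.val hab)

end Pool.Agent.Y69.TK.Emb
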