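import Pool.Agent.Y69.Main

/-!
# `K₁` of group rings and directed unions of coefficient rings
-/

open Matrix

namespace Pool.Agent.Y69.TK.Dsc

open H970SH H842 MonoidAlgebra Pool.Agent.Y69 Pool.Agent.Y69.Main

noncomputable section

section cmap

variable {A B : Type} [CommRing A] [CommRing B]

theorem mapRing_mapDomain (f : A →+* B) {C D : Type} [Group C] [Group D] (φ : C →* D) :
    (mapRingHom D f).comp (mapDomainRingHom A φ) =
      (mapDomainRingHom B φ).comp (mapRingHom C f) := by
  apply RingHom.coe_addMonoidHom_injective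
  apply addMonoidHom_ext
  intro m r
  show mapRingHom D f (mapDomainRingHom A φ (single m r)) =
    mapDomainRingHom B φ (mapRingHom C f (single m r))
  rw [mapDomainRingHom_apply, mapDomain_single, mapRingHom_single, mapRingHom_single,
    mapDomainRingHom_apply, mapDomain_single]

variable {G : Type} [Group G]

/-- change of coefficients -/
def cmap (f : A →+* B) : K1Colim A G →+ K1Colim B G :=
  Colim.lift (F := fun H : Subgroup G => K1 (MonoidAlgebra A H))
    (m := fun φ => K1map (mapDomainRingHom A φ))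
    (fun H => (Colim.ιHom (G := G) (fun H => K1 (MonoidAlgebra B H))
      (fun φ => K1map (mapDomainRingHom B φ)) H).comp (K1map (mapRingHom H.1 f)))
    (fun H K g φ hφ x => by
      show Colim.ι (G := G) (fun H => K1 (MonoidAlgebra B H))
        (fun φ => K1map (mapDomainRingHom B φ)) K (K1map (mapRingHom K.1 f)
          (K1map (mapDomainRingHom A φ) x)) = _
      rw [K1map_comp, mapRing_mapDomain, ← K1map_comp]
      exact Colim.ι_rel (G := G) (fun H => K1 (MonoidAlgebra B H))
        (fun φ => K1map (mapDomainRingHom B φ)) H K g φ hφ _)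

theorem cmap_ι (f : A →+* B) (H : FinSub G) (x : K1 (MonoidAlgebra A H.1)) :
    cmap f (Colim.ι (G := G) (fun H => K1 (MonoidAlgebra A H))
        (fun φ => K1map (mapDomainRingHom A φ)) H x) =
      Colim.ι (G := G) (fun H => K1 (MonoidAlgebra B H))
        (fun φ => K1map (mapDomainRingHom B φ)) H (K1map (mapRingHom H.1 f) x) :=
  Colim.lift_ι (G := G) (F := fun H => K1 (MonoidAlgebra A H))
    (m := fun φ => K1map (mapDomainRingHom A φ)) _ _ H x

theorem assembly_cmap (f : A →+* B) (z : K1Colim A G) :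
    K1assembly B G (cmap f z) = K1map (mapRingHom G f) (K1assembly A G z) := by
  induction z using Colim.induction with
  | h0 => rw [map_zero, map_zero, map_zero, map_zero]
  | hadd x y hx hy => rw [map_add, map_add, hx, hy, map_add, map_add]
  | hneg x hx => rw [map_neg, map_neg, hx, map_neg, map_neg]
  | hι H x =>
    rw [cmap_ι, K1assembly_ι, K1assembly_ι, K1map_comp, K1map_comp, mapRing_mapDomain]

theorem mapUnit_unit1 {R S : Type} [Ring R] [Ring S] (f : R →+* S) (u : Rˣ) :
    mapUnit f (unit1 u) = unit1 (Units.map (f : R →* S) u) := rfl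

theorem mapUnit_mapUnit {R S T : Type} [Ring R] [Ring S] [Ring T] (f : R →+* S) (g : S →+* T)
    {ι : Type} [Fintype ι] [DecidableEq ι] (u : (Matrix ι ι R)ˣ) :
    mapUnit g (mapUnit f u) = mapUnit (g.comp f) u := rfl

theorem cmap_sym (f : A →+* B) {C : Type} [CommGroup C] [Finite C] (φ : C →* G)
    (u : Additive (MonoidAlgebra A C)ˣ) : cmap f (sym A φ u) =
      sym B φ (Additive.ofMul (Units.map (mapRingHom C f : MonoidAlgebra A C →* MonoidAlgebra B C)
        u.toMul)) := by
  rw [sym_apply, cmap_ι, sym_apply, K1map_cl, toMul_ofMul]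
  congr 2
  rw [← mapUnit_unit1, mapUnit_mapUnit, mapUnit_mapUnit, mapRing_mapDomain]

theorem cmap_SE (f : A →+* B) {E : ℕ} {y : K1Colim A G} (hy : y ∈ SE A G E) :
    cmap f y ∈ SE B G E := by
  unfold SE at hy
  induction hy using AddSubgroup.closure_induction with
  | mem y hy =>
    obtain ⟨C, i1, i2, hC, φ, hφ, u, rfl⟩ := hy
    rw [cmap_sym]
    exact AddSubgroup.subset_closure ⟨C, i1, i2, hC, φ, hφ, _, rfl⟩
  | zero => rw [map_zero]; exact AddSubgroup.zero_mem _
  | add x y _ _ hx hy => rw [map_add]; exact AddSubgroup.add_mem _ hx hy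
  | neg x _ hx => rw [map_neg]; exact AddSubgroup.neg_mem _ hx

theorem cmap_cmap {D : Type} [CommRing D] (f : A →+* B) (g : B →+* D) (z : K1Colim A G) :
    cmap g (cmap f z) = cmap (g.comp f) z := by
  induction z using Colim.induction with
  | h0 => rw [map_zero, map_zero, map_zero]
  | hadd x y hx hy => rw [map_add, map_add, hx, hy, map_add]
  | hneg x hx => rw [map_neg, map_neg, hx, map_neg]
  | hι H x =>
    rw [cmap_ι, cmap_ι, cmap_ι, K1map_comp]
    congr 3
    apply RingHom.coe_addMonoidHom_injective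
    apply addMonoidHom_ext
    intro m r
    show mapRingHom _ g (mapRingHom _ f (single m r)) = mapRingHom _ (g.comp f) (single m r)
    rw [mapRingHom_single, mapRingHom_single, mapRingHom_single]
    rfl

end cmap

section descent

/-- a directed system of subrings -/
structure Sys (k : Type) [CommRing k] where
  /-- the rings -/
  A : Finset k → Type
  /-- the ring structures -/
  ring : ∀ s, CommRing (A s)
  /-- the embeddings -/
  inA : ∀ s, A s →+* k
  inj : ∀ s, Function.Injective (inA s)
  mem : ∀ s, ∀ c ∈ s, ∃ a, inA s a = c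
  /-- the transition maps -/
  inAA : ∀ {s t}, s ≤ t → A s →+* A t
  comp : ∀ {s t} (h : s ≤ t), (inA t).comp (inAA h) = inA s

instance {k : Type} [CommRing k] (S : Sys k) (s : Finset k) : CommRing (S.A s) := S.ring s

variable {k : Type} [CommRing k] (S : Sys k) (G : Type) [Group G]

/-- the inclusion of group rings -/
def inc (s : Finset k) : MonoidAlgebra (S.A s) G →+* MonoidAlgebra k G := mapRingHom G (S.inA s)

theorem inc_injective (s : Finset k) : Function.Injective (inc S G s) := by
  intro x y h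
  apply MonoidAlgebra.coeff_injective
  apply Finsupp.ext
  intro g
  apply S.inj s
  have h1 := congrArg (fun z => z.coeff g) h
  simp only [inc, coeff_mapRingHom] at h1
  exact h1

open Filter

theorem ev_range (x : MonoidAlgebra k G) : ∀ᶠ t : Finset k in atTop, x ∈ (inc S G t).range := by
  induction x using MonoidAlgebra.induction_linear with
  | zero => exact Eventually.of_forall fun t => Subring.zero_mem _
  | add x y hx hy =>
    filter_upwards [hx, hy] with t h1 h2
    exact Subring.add_mem _ h1 h2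
  | single g c =>
    rw [eventually_atTop]
    refine ⟨{c}, fun t ht => ?_⟩
    obtain ⟨a, ha⟩ := S.mem t c (ht (Finset.mem_singleton_self c))
    refine ⟨single g a, ?_⟩
    show mapRingHom G (S.inA t) (single g a) = _
    rw [mapRingHom_single, ha]

theorem ev_lift {n : Type} [Fintype n] [DecidableEq n] (M : (Matrix n n (MonoidAlgebra k G))ˣ) :
    ∀ᶠ t : Finset k in atTop, ∃ M' : (Matrix n n (MonoidAlgebra (S.A t) G))ˣ,
      mapUnit (inc S G t) M' = M := by
  have h1 : ∀ᶠ t : Finset k in atTop, ∀ i j, (M : Matrix n n (MonoidAlgebra k G)) i j ∈ (inc S G t).range :=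
    eventually_all.2 fun i => eventually_all.2 fun j => ev_range S G _
  have h2 : ∀ᶠ t : Finset k in atTop, ∀ i j, ((M⁻¹ : (Matrix n n (MonoidAlgebra k G))ˣ) :
      Matrix n n (MonoidAlgebra k G)) i j ∈ (inc S G t).range :=
    eventually_all.2 fun i => eventually_all.2 fun j => ev_range S G _
  filter_upwards [h1, h2] with t h1 h2
  choose P hP using h1
  choose Q hQ using h2
  have hP' : (inc S G t).mapMatrix (Matrix.of P) = (M : Matrix n n (MonoidAlgebra k G)) := by
    ext i j : 1
    exact hP i j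
  have hQ' : (inc S G t).mapMatrix (Matrix.of Q) = ((M⁻¹ : (Matrix n n (MonoidAlgebra k G))ˣ) :
      Matrix n n (MonoidAlgebra k G)) := by
    ext i j : 1
    exact hQ i j
  have hinj : Function.Injective ((inc S G t).mapMatrix :
      Matrix n n (MonoidAlgebra (S.A t) G) →+* Matrix n n (MonoidAlgebra k G)) :=
    Matrix.map_injective (inc_injective S G t)
  refine ⟨⟨Matrix.of P, Matrix.of Q, ?_, ?_⟩, ?_⟩
  · apply hinj
    rw [map_mul, hP', hQ', map_one, Units.mul_inv]
  · apply hinj
    rw [map_mul, hP', hQ', map_one, Units.inv_mul]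
  · apply Units.ext
    exact hP'

theorem mapUnit_inj {R S : Type} [Ring R] [Ring S] (f : R →+* S) (hf : Function.Injective f)
    {n : Type} [Fintype n] [DecidableEq n] {M N : (Matrix n n R)ˣ} (h : mapUnit f M = mapUnit f N) :
    M = N := by
  apply Units.ext
  exact Matrix.map_injective hf (congrArg Units.val h)

/-- eventually zero families -/
def evZ : AddSubgroup (∀ t : Finset k, K1 (MonoidAlgebra (S.A t) G)) where
  carrier := {f | ∀ᶠ t in atTop, f t = 0}
  zero_mem' := Eventually.of_forall fun _ => rfl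
  add_mem' := by
    intro f g hf hg
    filter_upwards [hf, hg] with t h1 h2
    rw [Pi.add_apply, h1, h2, add_zero]
  neg_mem' := by
    intro f hf
    filter_upwards [hf] with t h1
    rw [Pi.neg_apply, h1, neg_zero]

open Classical in
/-- a lift -/
def Lf {n : ℕ} (M : (Matrix (Fin n) (Fin n) (MonoidAlgebra k G))ˣ) (t : Finset k) :
    (Matrix (Fin n) (Fin n) (MonoidAlgebra (S.A t) G))ˣ :=
  if h : ∃ M' : (Matrix (Fin n) (Fin n) (MonoidAlgebra (S.A t) G))ˣ, mapUnit (inc S G t) M' = M then
    h.choose else 1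

theorem Lf_map {n : ℕ} (M : (Matrix (Fin n) (Fin n) (MonoidAlgebra k G))ˣ) (t : Finset k)
    (h : ∃ M' : (Matrix (Fin n) (Fin n) (MonoidAlgebra (S.A t) G))ˣ, mapUnit (inc S G t) M' = M) :
    mapUnit (inc S G t) (Lf S G M t) = M := by
  unfold Lf
  rw [dif_pos h]
  exact h.choose_spec

/-- the homomorphism to the quotient by eventually zero families -/
theorem exists_hom : ∃ Φ : K1 (MonoidAlgebra k G) →+
    (∀ t : Finset k, K1 (MonoidAlgebra (S.A t) G)) ⧸ evZ S G,
    ∀ (n : ℕ) (M : (Matrix (Fin n) (Fin n) (MonoidAlgebra k G))ˣ),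
      Φ (K1.mk M) = QuotientAddGroup.mk' (evZ S G) (fun t => K1.mk (Lf S G M t)) := by
  let Φ0 : FreeAbelianGroup (Σ n : ℕ, (Matrix (Fin n) (Fin n) (MonoidAlgebra k G))ˣ) →+
    (∀ t : Finset k, K1 (MonoidAlgebra (S.A t) G)) ⧸ evZ S G :=
    FreeAbelianGroup.lift fun x => QuotientAddGroup.mk' (evZ S G) (fun t => K1.mk (Lf S G x.2 t))
  have h0 : AddSubgroup.closure (K1Rel (MonoidAlgebra k G)) ≤ Φ0.ker := by
    rw [AddSubgroup.closure_le]
    rintro x (⟨n, M, N, rfl⟩ | ⟨n, M, N, hN, rfl⟩)
    · show Φ0 _ = 0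
      rw [map_sub, map_add]
      simp only [Φ0, FreeAbelianGroup.lift_apply_of]
      rw [sub_eq_zero, ← map_add, QuotientAddGroup.mk'_apply, QuotientAddGroup.mk'_apply,
        QuotientAddGroup.eq_iff_sub_mem]
      show ∀ᶠ t in atTop, _
      filter_upwards [ev_lift S G M, ev_lift S G N, ev_lift S G (M * N)] with t h1 h2 h3
      rw [Pi.sub_apply, Pi.add_apply, sub_eq_zero, ← mk_mul]
      congr 1
      apply mapUnit_inj _ (inc_injective S G t)
      rw [mapUnit_mul, Lf_map S G _ t h1, Lf_map S G _ t h2, Lf_map S G _ t h3]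
    · show Φ0 _ = 0
      rw [map_sub]
      simp only [Φ0, FreeAbelianGroup.lift_apply_of]
      rw [sub_eq_zero, QuotientAddGroup.mk'_apply, QuotientAddGroup.mk'_apply,
        QuotientAddGroup.eq_iff_sub_mem]
      show ∀ᶠ t in atTop, _
      filter_upwards [ev_lift S G M, ev_lift S G N] with t h1 h2
      rw [Pi.sub_apply, sub_eq_zero]
      apply mk_stab
      apply Matrix.map_injective (inc_injective S G t)
      have h3 := congrArg Units.val (Lf_map S G _ t h2)
      have h4 := congrArg Units.val (Lf_map S G _ t h1)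
      rw [mapUnit_val] at h3 h4
      show (Lf S G N t).val.map (inc S G t) = Matrix.map _ (inc S G t)
      rw [h3, hN, ← h4]
      ext i j
      simp only [Matrix.map_apply, Matrix.reindex_apply, Matrix.submatrix_apply]
      rcases h1 : finSumFinEquiv.symm i with a | a <;> rcases h2 : finSumFinEquiv.symm j with b | b
      · simp
      · simp
      · simp
      · simp [Matrix.one_apply]
  refine ⟨QuotientAddGroup.lift _ Φ0 h0, ?_⟩
  intro n M
  show Φ0 _ = _
  simp only [Φ0, FreeAbelianGroup.lift_apply_of]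

/-- **Descent.** -/
theorem descend (s : Finset k) (x : K1 (MonoidAlgebra (S.A s) G)) (hx : K1map (inc S G s) x = 0) :
    ∃ (t : Finset k) (h : s ≤ t), K1map (mapRingHom G (S.inAA h)) x = 0 := by
  obtain ⟨Φ, hΦ⟩ := exists_hom S G
  obtain ⟨n, M, rfl⟩ := K1_exists x
  rw [cl_fin, K1map_mk] at hx
  have h1 := hΦ n (mapUnit (inc S G s) M)
  rw [hx, map_zero] at h1
  have h2 : ∀ᶠ t in atTop, K1.mk (Lf S G (mapUnit (inc S G s) M) t) = 0 :=
    (QuotientAddGroup.eq_zero_iff _).1 h1.symm
  obtain ⟨t, ht, hst⟩ := (h2.and (eventually_ge_atTop s)).exists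
  refine ⟨t, hst, ?_⟩
  rw [cl_fin, K1map_mk]
  have h3 : mapUnit (inc S G t) (mapUnit (mapRingHom G (S.inAA hst)) M) = mapUnit (inc S G s) M := by
    have h4 : (inc S G t).comp (mapRingHom G (S.inAA hst)) = inc S G s := by
      apply RingHom.coe_addMonoidHom_injective
      apply addMonoidHom_ext
      intro m r
      show mapRingHom _ _ (mapRingHom _ _ (single m r)) = mapRingHom _ _ (single m r)
      rw [mapRingHom_single, mapRingHom_single, mapRingHom_single, ← S.comp hst]
      rfl
    rw [mapUnit_mapUnit, h4]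
  have h5 := Lf_map S G (mapUnit (inc S G s) M) t ⟨_, h3⟩
  rw [← h3] at h5
  rw [← mapUnit_inj _ (inc_injective S G t) h5, h3]
  exact ht

/-- lifting of units -/
theorem ev_unit {C : Type} [Group C] (u : (MonoidAlgebra k C)ˣ) :
    ∀ᶠ t : Finset k in atTop, ∃ u' : (MonoidAlgebra (S.A t) C)ˣ,
      Units.map (mapRingHom C (S.inA t) : MonoidAlgebra (S.A t) C →* MonoidAlgebra k C) u' = u := by
  filter_upwards [ev_range S C (u : MonoidAlgebra k C),
    ev_range S C ((u⁻¹ : (MonoidAlgebra k C)ˣ) : MonoidAlgebra k C)] with t h1 h2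
  obtain ⟨a, ha⟩ := h1
  obtain ⟨b, hb⟩ := h2
  refine ⟨⟨a, b, ?_, ?_⟩, Units.ext ha⟩
  · apply inc_injective S C t
    rw [map_mul, ha, hb, map_one, Units.mul_inv]
  · apply inc_injective S C t
    rw [map_mul, ha, hb, map_one, Units.inv_mul]

theorem ev_SE {E : ℕ} {y : K1Colim k G} (hy : y ∈ SE k G E) :
    ∀ᶠ t : Finset k in atTop, ∃ y' ∈ SE (S.A t) G E, cmap (S.inA t) y' = y := by
  unfold SE at hy
  induction hy using AddSubgroup.closure_induction with
  | mem y hy =>
    obtain ⟨C, i1, i2, hC, φ, hφ, u, rfl⟩ := hy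
    filter_upwards [ev_unit S u.toMul] with t ht
    obtain ⟨u', hu'⟩ := ht
    refine ⟨sym _ φ (Additive.ofMul u'), AddSubgroup.subset_closure ⟨C, i1, i2, hC, φ, hφ, _, rfl⟩, ?_⟩
    rw [cmap_sym, toMul_ofMul, hu']
    rfl
  | zero => exact Eventually.of_forall fun t => ⟨0, AddSubgroup.zero_mem _, map_zero _⟩
  | add x y _ _ hx hy =>
    filter_upwards [hx, hy] with t h1 h2
    obtain ⟨a, ha, rfl⟩ := h1
    obtain ⟨b, hb, rfl⟩ := h2
    exact ⟨a + b, AddSubgroup.add_mem _ ha hb, map_add _ _ _⟩
  | neg x _ hx =>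
    filter_upwards [hx] with t h1
    obtain ⟨a, ha, rfl⟩ := h1
    exact ⟨-a, AddSubgroup.neg_mem _ ha, map_neg _ _⟩

end descent

end

end Pool.Agent.Y69.TK.Dsc
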