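import Pool.Agent.Y69.TK.Emb0

/-!
# Finitely generated domains of characteristic zero embed in `ℤ_p` with `p ≡ 1 mod E`
-/

set_option autoImplicit false
set_option linter.unusedSectionVars false

namespace Pool.Agent.Y69.TK.Emb

open Polynomial

/-- an integral polynomial has a root modulo arbitrarily large primes -/
theorem exists_root_prime (g : ℤ[X]) (hg : 0 < g.natDegree) (B : ℕ) :
    ∃ p : ℕ, p.Prime ∧ B < p ∧ ∃ n : ℤ, (p : ℤ) ∣ g.eval n := by
  by_cases h0 : g.eval 0 = 0
  · obtain ⟨p, hp, hpp⟩ := Nat.exists_infinite_primes (B + 1)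
    exact ⟨p, hpp, by omega, 0, by rw [h0]; exact dvd_zero _⟩
  set c : ℤ := g.eval 0 with hc
  let N : ℤ := (B.factorial : ℤ)
  have hN : N ≠ 0 := by
    have := B.factorial_pos
    simp only [N]
    exact_mod_cast this.ne'
  have key : ∀ d : ℤ, {m : ℤ | g.eval (c * N * m) = d}.Finite := by
    intro d
    have h1 : ((g - C d).rootSet ℤ).Finite := Polynomial.rootSet_finite _ _
    have h2 : g - C d ≠ 0 := by
      intro h
      rw [sub_eq_zero] at h
      rw [h, natDegree_C] at hg
      exact lt_irrefl _ hg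
    have h3 : Function.Injective fun m : ℤ => c * N * m :=
      mul_right_injective₀ (mul_ne_zero h0 hN)
    refine (h1.preimage h3.injOn).subset ?_
    intro m hm
    rw [Set.mem_preimage, mem_rootSet]
    refine ⟨h2, ?_⟩
    rw [map_sub, coe_aeval_eq_eval, eval_C, sub_eq_zero]
    exact hm
  obtain ⟨m, hm⟩ := (((key c).union (key (-c))).infinite_compl).nonempty
  rw [Set.mem_compl_iff, Set.mem_union, not_or] at hm
  obtain ⟨q, hq⟩ := Polynomial.sub_dvd_eval_sub (c * N * m) 0 g
  rw [sub_zero, ← hc] at hq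
  have h4 : g.eval (c * N * m) = c * (1 + N * (m * q)) := by
    linear_combination hq
  have h5 : (1 + N * (m * q)).natAbs ≠ 1 := by
    intro h
    rw [Int.natAbs_eq_iff] at h
    rcases h with h | h
    · apply hm.1
      rw [Set.mem_ofPred_eq, h4, h]
      simp
    · apply hm.2
      rw [Set.mem_ofPred_eq, h4, h]
      simp
  obtain ⟨p, hp, hpd⟩ := Nat.exists_prime_and_dvd h5
  have hpd' : (p : ℤ) ∣ 1 + N * (m * q) := Int.natCast_dvd.2 hpd
  refine ⟨p, hp, ?_, c * N * m, by rw [h4]; exact Dvd.dvd.mul_left hpd' _⟩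
  by_contra hB
  rw [not_lt] at hB
  have h6 : (p : ℤ) ∣ N := by
    simp only [N]
    exact_mod_cast Nat.dvd_factorial hp.pos hB
  have h7 : (p : ℤ) ∣ 1 := by
    have := dvd_sub hpd' (Dvd.dvd.mul_right h6 (m * q))
    simpa using this
  have h8 : p = 1 := by
    have := Int.natAbs_dvd_natAbs.2 h7
    simpa using this
  exact hp.one_lt.ne' h8

/-- algebraic numbers modulo primes -/
theorem exists_prime_point_aux (Ω : Type) [Field Ω] [NumberField Ω] {J : Type*} [Finite J]
    (y : J → Ω) (B : ℕ) :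
    ∃ (p : ℕ) (_ : Fact p.Prime), B < p ∧
      ∃ z : J → ZMod p, ∀ P : MvPolynomial J ℤ, MvPolynomial.aeval y P = 0 →
        MvPolynomial.aeval z P = 0 := by
  classical
  have hJ := Fintype.ofFinite J
  obtain ⟨β, hβ⟩ := Field.exists_primitive_element ℚ Ω
  obtain ⟨b, hb0, hb⟩ := ((IsFractionRing.isAlgebraic_iff ℤ ℚ Ω).2
    (Algebra.IsAlgebraic.isAlgebraic (R := ℚ) β)).exists_integral_multiple
  set α : Ω := b • β with hα
  have hαtop : IntermediateField.adjoin ℚ {α} = ⊤ := by
    rw [eq_top_iff, ← hβ, IntermediateField.adjoin_simple_le_iff]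
    have h1 : β = ((b : ℚ)⁻¹) • α := by
      rw [hα, ← Int.cast_smul_eq_zsmul ℚ b β, smul_smul, inv_mul_cancel₀ (by exact_mod_cast hb0),
        one_smul]
    rw [h1]
    exact IntermediateField.smul_mem _ (IntermediateField.mem_adjoin_simple_self ℚ _)
  have htop2 : Algebra.adjoin ℚ {α} = ⊤ := by
    rw [← IntermediateField.adjoin_simple_toSubalgebra_of_isAlgebraic
      (Algebra.IsAlgebraic.isAlgebraic _), hαtop, IntermediateField.top_toSubalgebra]
  have hgen : ∀ a : Ω, ∃ D : ℤ, D ≠ 0 ∧ ∃ P : ℤ[X], (D : Ω) * a = aeval α P := by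
    intro a
    have h1 : a ∈ Algebra.adjoin ℚ {α} := by
      rw [htop2]; exact Algebra.mem_top
    rw [Algebra.adjoin_singleton_eq_range_aeval] at h1
    obtain ⟨P, hP⟩ := h1
    obtain ⟨D, hD1, hD2⟩ := IsLocalization.integerNormalization_spec (nonZeroDivisors ℤ) P
    refine ⟨D, nonZeroDivisors.ne_zero hD1,
      IsLocalization.integerNormalization (nonZeroDivisors ℤ) P, ?_⟩
    have h2 : aeval α (D • P) = (D : Ω) * a := by
      rw [map_zsmul, zsmul_eq_mul]
      congr 1
    rw [← h2, ← hD2, aeval_map_algebraMap]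
  choose D hD0 P hP using fun j => hgen (y j)
  let g := minpoly ℤ α
  have hg : 0 < g.natDegree := minpoly.natDegree_pos hb
  obtain ⟨p, hpp, hpB, n, hn⟩ := exists_root_prime g hg (B + ∑ j, (D j).natAbs)
  have hF : Fact p.Prime := ⟨hpp⟩
  have hpD : ∀ j, ((D j : ℤ) : ZMod p) ≠ 0 := by
    intro j h
    rw [ZMod.intCast_zmod_eq_zero_iff_dvd] at h
    have h1 : p ∣ (D j).natAbs := Int.natCast_dvd.1 h
    have h2 : 0 < (D j).natAbs := Int.natAbs_pos.2 (hD0 j)
    have h3 := Nat.le_of_dvd h2 h1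
    have h4 : (D j).natAbs ≤ ∑ j, (D j).natAbs :=
      Finset.single_le_sum (f := fun j => (D j).natAbs) (fun _ _ => Nat.zero_le _)
        (Finset.mem_univ j)
    omega
  refine ⟨p, hF, by omega, ?_⟩
  let φ0 : AdjoinRoot g →+* ZMod p := AdjoinRoot.lift (Int.castRingHom (ZMod p)) (n : ZMod p) (by
    have h1 := Polynomial.eval₂_at_apply (p := g) (Int.castRingHom (ZMod p)) n
    refine h1.trans ?_
    rw [eq_intCast, ZMod.intCast_zmod_eq_zero_iff_dvd]
    exact hn)
  let φ : Algebra.adjoin ℤ ({α} : Set Ω) →+* ZMod p :=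
    φ0.comp ((minpoly.equivAdjoin hb).symm : _ →+* AdjoinRoot g)
  let x : J → Algebra.adjoin ℤ ({α} : Set Ω) := fun j => ⟨aeval α (P j), aeval_mem_adjoin_singleton _ _⟩
  refine ⟨fun j => φ (x j) / φ (D j), fun Q hQ => ?_⟩
  apply eval_transfer (algebraMap (Algebra.adjoin ℤ ({α} : Set Ω)) Ω) Subtype.val_injective φ x
    (fun j => (D j : Algebra.adjoin ℤ ({α} : Set Ω))) (fun j => by
      rw [map_intCast]
      exact hpD j) Q
  have h2 : (fun j => (algebraMap (Algebra.adjoin ℤ ({α} : Set Ω)) Ω) (x j) /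
      (algebraMap (Algebra.adjoin ℤ ({α} : Set Ω)) Ω) (D j : Algebra.adjoin ℤ ({α} : Set Ω))) = y := by
    funext j
    rw [map_intCast]
    have h3 : (algebraMap (Algebra.adjoin ℤ ({α} : Set Ω)) Ω) (x j) = (D j : Ω) * y j :=
      (hP j).symm
    rw [h3, mul_div_cancel_left₀]
    exact_mod_cast hD0 j
  rw [h2]
  exact hQ

/-- algebraic numbers modulo primes which are `1` modulo `E` -/
theorem exists_prime_point (Ω : Type) [Field Ω] [NumberField Ω] {J : Type*} [Finite J]
    (y : J → Ω) (E B : ℕ) (hE : 0 < E) :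
    ∃ (p : ℕ) (_ : Fact p.Prime), B < p ∧ E ∣ p - 1 ∧
      ∃ z : J → ZMod p, ∀ P : MvPolynomial J ℤ, MvPolynomial.aeval y P = 0 →
        MvPolynomial.aeval z P = 0 := by
  have : NeZero E := ⟨hE.ne'⟩
  let Ω' := CyclotomicField E Ω
  obtain ⟨ζ, hζ⟩ := IsCyclotomicExtension.exists_isPrimitiveRoot (S := {E}) Ω Ω'
    (Set.mem_singleton E) hE.ne'
  let y' : J ⊕ Unit → Ω' := Sum.elim (fun j => algebraMap Ω Ω' (y j)) (fun _ => ζ)
  obtain ⟨p, hp, hpB, z, hz⟩ := exists_prime_point_aux Ω' y' (B + E)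
  refine ⟨p, hp, by omega, ?_, fun j => z (Sum.inl j), fun P hP => ?_⟩
  · have h1 : aeval (z (Sum.inr ())) (cyclotomic E ℤ) = 0 := by
      have h2 := hz (aeval (MvPolynomial.X (Sum.inr ())) (cyclotomic E ℤ)) (by
        have h3 := Polynomial.aeval_algHom_apply (MvPolynomial.aeval (R := ℤ) y')
          (MvPolynomial.X (Sum.inr ())) (cyclotomic E ℤ)
        refine h3.symm.trans ?_
        rw [MvPolynomial.aeval_X]
        change aeval ζ (cyclotomic E ℤ) = 0
        rw [aeval_def, eval₂_eq_eval_map, map_cyclotomic]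
        exact hζ.isRoot_cyclotomic hE)
      have h3 := Polynomial.aeval_algHom_apply (MvPolynomial.aeval (R := ℤ) z)
          (MvPolynomial.X (Sum.inr ())) (cyclotomic E ℤ)
      have h4 := h3.trans h2
      rw [MvPolynomial.aeval_X] at h4
      exact h4
    rw [aeval_def, eval₂_eq_eval_map, map_cyclotomic] at h1
    have h4 : NeZero (E : ZMod p) := ⟨by
      rw [Ne, ZMod.natCast_eq_zero_iff]
      intro h
      have := Nat.le_of_dvd hE h
      omega⟩
    have h5 : IsPrimitiveRoot (z (Sum.inr ())) E := isRoot_cyclotomic_iff.1 h1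
    have h6 : z (Sum.inr ()) ≠ 0 := h5.ne_zero hE.ne'
    have h7 := ZMod.pow_card_sub_one_eq_one h6
    exact h5.dvd_of_pow_eq_one _ h7
  · have h1 := hz (MvPolynomial.rename Sum.inl P) (by
      rw [MvPolynomial.aeval_rename]
      have h2 := map_aeval_int (algebraMap Ω Ω') y P
      rw [hP, map_zero] at h2
      exact h2.symm)
    rw [MvPolynomial.aeval_rename] at h1
    exact h1

/-- a finitely generated algebra over the rational numbers has a point over a number field -/
theorem exists_rat_point (B' : Type) [CommRing B'] [Nontrivial B'] [Algebra ℚ B']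
    [hft : Algebra.FiniteType ℚ B'] :
    ∃ (Ω : Type) (_ : Field Ω) (_ : NumberField Ω), Nonempty (B' →+* Ω) := by
  obtain ⟨m, hm⟩ := Ideal.exists_maximal B'
  have hex : ∃ (F : Type) (_ : Field F) (_ : Algebra ℚ F) (_ : Algebra.FiniteType ℚ F),
      Nonempty (B' →+* F) :=
    ⟨B' ⧸ m, Ideal.Quotient.field m, inferInstance,
      hft.of_surjective (Ideal.Quotient.mkₐ ℚ m) (Ideal.Quotient.mkₐ_surjective ℚ m),
      ⟨Ideal.Quotient.mk m⟩⟩
  obtain ⟨F, i1, i2, i3, ⟨f⟩⟩ := hex
  have hfin : Module.Finite ℚ F := finite_of_finite_type_of_isJacobsonRing ℚ F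
  have hczF : CharZero F := charZero_of_injective_algebraMap (algebraMap ℚ F).injective
  have hnf : NumberField F := by
    have e : i2 = DivisionRing.toRatAlgebra := Subsingleton.elim _ _
    subst e
    exact ⟨⟩
  exact ⟨F, i1, hnf, ⟨f⟩⟩

/-- a finitely generated domain of characteristic zero has many points over number fields -/
theorem exists_number_point {A : Type} [CommRing A] [IsDomain A] [CharZero A]
    [Algebra.FiniteType ℤ A] (a : A) (ha : a ≠ 0) :
    ∃ (Ω : Type) (_ : Field Ω) (_ : NumberField Ω) (ρ : A →+* Ω), ρ a ≠ 0 := by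
  classical
  obtain ⟨S, hS⟩ := (Algebra.FiniteType.out (R := ℤ) (A := A))
  let L := FractionRing A
  let ι : A →+* L := algebraMap A L
  have hι : Function.Injective ι := IsFractionRing.injective A L
  have hcz : CharZero L := charZero_of_injective_algebraMap hι
  let _ : Algebra ℚ L := DivisionRing.toRatAlgebra
  let T : Set L := insert (ι a)⁻¹ (ι '' (S : Set A))
  have hT : T.Finite := ((S.finite_toSet).image _).insert _
  let B' := Algebra.adjoin ℚ T
  have hft : Algebra.FiniteType ℚ B' :=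
    (Subalgebra.fg_iff_finiteType _).1 (Subalgebra.fg_def.2 ⟨T, hT, rfl⟩)
  have hmemA : ∀ x : A, ι x ∈ B' := by
    intro x
    have h1 : x ∈ Algebra.adjoin ℤ (S : Set A) := by rw [hS]; exact Algebra.mem_top
    induction h1 using Algebra.adjoin_induction with
    | mem x hx => exact Algebra.subset_adjoin (Set.mem_insert_of_mem _ ⟨x, hx, rfl⟩)
    | algebraMap r =>
      have h2 : ι (algebraMap ℤ A r) = (r : L) := by
        rw [algebraMap_int_eq]
        simp [ι]
      rw [h2]
      exact intCast_mem _ r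
    | add x y _ _ hx hy => rw [map_add]; exact add_mem hx hy
    | mul x y _ _ hx hy => rw [map_mul]; exact mul_mem hx hy
  have hmi : (ι a)⁻¹ ∈ B' := Algebra.subset_adjoin (Set.mem_insert _ _)
  let f : A →+* B' := ι.codRestrict B'.toSubring hmemA
  obtain ⟨F, i1, hnf, ⟨ρ⟩⟩ := exists_rat_point B'
  refine ⟨F, i1, hnf, ρ.comp f, ?_⟩
  intro h
  have h1 : ρ (f a * ⟨(ι a)⁻¹, hmi⟩) = 0 := by
    rw [map_mul]
    have h2 : ρ (f a) = 0 := h
    rw [h2, zero_mul]
  have h2 : f a * ⟨(ι a)⁻¹, hmi⟩ = (1 : B') := by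
    apply Subtype.ext
    show ι a * (ι a)⁻¹ = 1
    exact mul_inv_cancel₀ (by rw [Ne, map_eq_zero_iff _ hι]; exact ha)
  rw [h2, map_one] at h1
  exact one_ne_zero h1

end Pool.Agent.Y69.TK.Emb
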