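import Mathlib

/-!
# Tools for embedding finitely generated domains in the `p`-adic integers

(the statements and proofs of this file are taken from the files `PEmb1`, `PEmb2`, `PEmb3` of
`Pool.Agent.Y328`, without their dependence on densities of primes)
-/

set_option autoImplicit false
set_option linter.unusedSectionVars false

namespace Pool.Agent.Y69.TK.Emb

theorem map_aeval_int {A B J : Type*} [CommRing A] [CommRing B] (f : A →+* B) (y : J → A)
    (P : MvPolynomial J ℤ) : f (MvPolynomial.aeval y P) = MvPolynomial.aeval (fun j => f (y j)) P := by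
  have h : (MvPolynomial.aeval (fun j => f (y j)) : MvPolynomial J ℤ →ₐ[ℤ] B) =
      f.toIntAlgHom.comp (MvPolynomial.aeval y) := by
    ext j
    simp
  rw [h]
  rfl

theorem eval_transfer_aux {O E F J S : Type*} [CommRing O] [Field E] [Field F] [CommRing S]
    [Algebra O S] (ι : O →+* E)
    (hι : Function.Injective ι) (φ : O →+* F) (M : Submonoid O) (hM : ∀ m, m ∈ M ↔ φ m ≠ 0)
    [IsLocalization M S] (x D : J → O) (hD : ∀ j, φ (D j) ≠ 0)
    (P : MvPolynomial J ℤ) (hP : MvPolynomial.aeval (fun j => ι (x j) / ι (D j)) P = 0) :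
    MvPolynomial.aeval (fun j => φ (x j) / φ (D j)) P = 0 := by
  have hφ : ∀ m : M, IsUnit (φ m) := fun m => IsUnit.mk0 _ ((hM _).1 m.2)
  have hι' : ∀ m : M, IsUnit (ι m) := fun m => by
    refine IsUnit.mk0 _ fun h => (hM _).1 m.2 ?_
    have h1 : (m : O) = 0 := hι (by rw [h, map_zero])
    rw [h1, map_zero]
  let y : J → S := fun j => IsLocalization.mk' _ (x j) (⟨D j, (hM _).2 (hD j)⟩ : M)
  let F1 : S →+* F := IsLocalization.lift hφ
  let E1 : S →+* E := IsLocalization.lift hι'
  have hF1 : ∀ j, F1 (y j) = φ (x j) / φ (D j) := fun j => by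
    refine (IsLocalization.lift_mk'_spec _ _ _ _).2 ?_
    change φ (x j) = φ (D j) * (φ (x j) / φ (D j))
    rw [mul_div_cancel₀ _ (hD j)]
  have hE1 : ∀ j, E1 (y j) = ι (x j) / ι (D j) := fun j => by
    refine (IsLocalization.lift_mk'_spec _ _ _ _).2 ?_
    change ι (x j) = ι (D j) * (ι (x j) / ι (D j))
    rw [mul_div_cancel₀ _ (hι' ⟨D j, (hM _).2 (hD j)⟩).ne_zero]
  have hinj : ∀ z, E1 z = 0 → z = 0 := by
    intro z hz
    obtain ⟨a, m, rfl⟩ := IsLocalization.exists_mk'_eq M z
    have h1 := (IsLocalization.lift_mk'_spec _ _ _ _).1 hz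
    rw [mul_zero] at h1
    have h2 : a = 0 := hι (by rw [h1, map_zero])
    rw [h2, IsLocalization.mk'_zero]
  have h1 : MvPolynomial.aeval y P = 0 := by
    apply hinj
    rw [map_aeval_int]
    simp only [hE1]
    exact hP
  have h2 := map_aeval_int F1 y P
  rw [h1, map_zero] at h2
  simp only [hF1] at h2
  exact h2.symm

theorem eval_transfer {O E F J : Type*} [CommRing O] [Field E] [Field F] (ι : O →+* E)
    (hι : Function.Injective ι) (φ : O →+* F) (x D : J → O) (hD : ∀ j, φ (D j) ≠ 0)
    (P : MvPolynomial J ℤ) (hP : MvPolynomial.aeval (fun j => ι (x j) / ι (D j)) P = 0) :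
    MvPolynomial.aeval (fun j => φ (x j) / φ (D j)) P = 0 := by
  have hp : (RingHom.ker φ).IsPrime := RingHom.ker_isPrime φ
  exact eval_transfer_aux (S := Localization (RingHom.ker φ).primeCompl) ι hι φ
    (RingHom.ker φ).primeCompl (fun m => Iff.rfl) x D hD P hP


section

open Cardinal

theorem exists_algInd_padic (p : ℕ) [hp : Fact p.Prime] (d : ℕ) :
    ∃ x : Fin d → ℚ_[p], AlgebraicIndependent ℚ x := by
  obtain ⟨ι, v, hv⟩ := exists_isTranscendenceBasis' ℚ ℚ_[p]
  have hinf : Infinite ι := by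
    by_contra hfin
    rw [not_infinite_iff_finite] at hfin
    have h1 : Algebra.IsAlgebraic (Algebra.adjoin ℚ (Set.range v)) ℚ_[p] := hv.isAlgebraic
    have h2 : Countable (Algebra.adjoin ℚ (Set.range v)) := by
      have e := hv.1.aevalEquiv
      have : Countable (MvPolynomial ι ℚ) := by
        rw [← Cardinal.mk_le_aleph0_iff]
        refine MvPolynomial.cardinalMk_le_max_lift.trans ?_
        simp
      exact e.symm.injective.countable
    have h3 := Algebra.IsAlgebraic.cardinalMk_le_max (Algebra.adjoin ℚ (Set.range v)) ℚ_[p]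
    have h4 := continuum_le_cardinal_of_nontriviallyNormedField ℚ_[p]
    have h5 : #(Algebra.adjoin ℚ (Set.range v)) ≤ ℵ₀ := Cardinal.mk_le_aleph0
    rw [max_eq_right h5] at h3
    exact absurd (h4.trans h3) (not_le.2 aleph0_lt_continuum)
  have ⟨e⟩ : Nonempty (Fin d ↪ ι) := ⟨(Fin.valEmbedding).trans (Infinite.natEmbedding ι)⟩
  exact ⟨v ∘ e, hv.1.comp e e.injective⟩

theorem algInd_affine {K A : Type*} [Field K] [CommRing A] [Algebra K A] {d : ℕ} {x : Fin d → A}
    (hx : AlgebraicIndependent K x) (c : Fin d → K) (u : Fin d → K) (hu : ∀ i, u i ≠ 0) :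
    AlgebraicIndependent K (fun i => algebraMap K A (c i) + algebraMap K A (u i) * x i) := by
  rw [algebraicIndependent_iff] at hx ⊢
  intro P hP
  let f : MvPolynomial (Fin d) K →ₐ[K] MvPolynomial (Fin d) K :=
    MvPolynomial.aeval (fun i => MvPolynomial.C (c i) + MvPolynomial.C (u i) * MvPolynomial.X i)
  let g : MvPolynomial (Fin d) K →ₐ[K] MvPolynomial (Fin d) K :=
    MvPolynomial.aeval (fun i => MvPolynomial.C (u i)⁻¹ * (MvPolynomial.X i - MvPolynomial.C (c i)))
  have hgf : g.comp f = AlgHom.id K _ := by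
    ext1 i
    simp only [f, g, AlgHom.comp_apply, MvPolynomial.aeval_X, map_add, map_mul,
      MvPolynomial.aeval_C, AlgHom.id_apply, MvPolynomial.algebraMap_eq]
    rw [← mul_assoc, ← map_mul, mul_inv_cancel₀ (hu i), map_one]
    ring
  have h1 : MvPolynomial.aeval x (f P) = 0 := by
    rw [← hP]
    change ((MvPolynomial.aeval x).comp f) P = _
    congr 1
    ext1 i
    simp [f]
  have h2 := hx _ h1
  have h3 : g (f P) = P := congrArg (fun h => h P) hgf
  rw [← h3, h2, map_zero]

/-- algebraically independent `p`-adic integers in given residue classes -/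
theorem exists_algInd_lift (p : ℕ) [hp : Fact p.Prime] {d : ℕ} (c : Fin d → ZMod p) :
    ∃ τ : Fin d → ℤ_[p], (∀ i, PadicInt.toZMod (τ i) = c i) ∧
      ∀ P : MvPolynomial (Fin d) ℤ, MvPolynomial.aeval τ P = 0 → P = 0 := by
  obtain ⟨x, hx⟩ := exists_algInd_padic p d
  have h1 : ∀ i, ∃ n : ℕ, ‖(p : ℚ_[p]) ^ n * x i‖ ≤ 1 := by
    intro i
    have hpn : ‖(p : ℚ_[p])‖ < 1 := Padic.norm_p_lt_one
    have h2 : Filter.Tendsto (fun n : ℕ => ‖(p : ℚ_[p]) ^ n * x i‖) Filter.atTop (nhds 0) := by
      have h3 := (tendsto_pow_atTop_nhds_zero_of_lt_one (norm_nonneg _) hpn).mul_const ‖x i‖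
      rw [zero_mul] at h3
      refine h3.congr fun n => ?_
      rw [norm_mul, norm_pow]
    obtain ⟨n, hn⟩ := (h2.eventually (ge_mem_nhds (zero_lt_one))).exists
    exact ⟨n, hn⟩
  choose n hn using h1
  let y : Fin d → ℤ_[p] := fun i => ⟨(p : ℚ_[p]) ^ (n i) * x i, hn i⟩
  let τ : Fin d → ℤ_[p] := fun i => ((c i).val : ℤ_[p]) + p * y i
  refine ⟨τ, fun i => ?_, fun P hP => ?_⟩
  · simp [τ]
  · have h2 := algInd_affine hx (fun i => ((c i).val : ℚ)) (fun i => (p : ℚ) ^ (n i + 1))
      (fun i => pow_ne_zero _ (by exact_mod_cast hp.out.ne_zero))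
    rw [algebraicIndependent_iff] at h2
    have h3 := h2 (MvPolynomial.map (Int.castRingHom ℚ) P) (by
      have h4 := map_aeval_int (PadicInt.Coe.ringHom : ℤ_[p] →+* ℚ_[p]) τ P
      rw [hP, map_zero] at h4
      rw [h4, ← algebraMap_int_eq, MvPolynomial.aeval_map_algebraMap]
      congr 1
      congr 1
      funext i
      change _ = ((τ i : ℤ_[p]) : ℚ_[p])
      have e1 : ((τ i : ℤ_[p]) : ℚ_[p]) = ((c i).val : ℚ_[p]) + (p : ℚ_[p]) * ((y i : ℤ_[p]) : ℚ_[p]) := by
        simp only [τ, PadicInt.coe_add, PadicInt.coe_mul, PadicInt.coe_natCast]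
      have e2 : ((y i : ℤ_[p]) : ℚ_[p]) = (p : ℚ_[p]) ^ (n i) * x i := rfl
      rw [e1, e2]
      push_cast
      ring)
    exact MvPolynomial.map_injective _ (Int.cast_injective) (by rw [h3, map_zero])


end

section


/-- the value of a polynomial in `d + 1` variables at a real point -/
noncomputable def ev2 {d : ℕ} {R : Type*} [CommRing R] (F : Polynomial (MvPolynomial (Fin d) ℤ))
    (x : Fin d → R) (y : R) : R :=
  F.eval₂ (MvPolynomial.aeval x : MvPolynomial (Fin d) ℤ →ₐ[ℤ] R).toRingHom y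


end

section

open Polynomial

/-- primitive element data -/
theorem data_aux {R A K L : Type*} [CommRing R] [IsDomain R] [IsIntegrallyClosed R] [CharZero R]
    [CommRing A] [IsDomain A] [Algebra R A] [FaithfulSMul R A] [Algebra.FiniteType R A]
    [Algebra.IsAlgebraic R A] [Field K] [Algebra R K] [IsFractionRing R K] [Field L] [Algebra A L]
    [IsFractionRing A L] [Algebra K L] [Algebra R L] [IsScalarTower R K L] [IsScalarTower R A L]
    (S : Finset A) :
    ∃ (θ : A) (f : R[X]) (h : R), aeval θ f = 0 ∧ aeval θ (derivative f) ≠ 0 ∧ h ≠ 0 ∧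
      (∀ a ∈ S, ∃ G : R[X], h • a = aeval θ G) ∧
      ∀ (F : Type) [Field F] (φ : R →+* F), Function.Injective φ → ∀ z : F, f.eval₂ φ z = 0 →
        ∃ ψ : A →+* F, Function.Injective ψ ∧ (∀ r, ψ (algebraMap R A r) = φ r) ∧ ψ θ = z := by
  classical
  have hcR : CharZero K := charZero_of_injective_algebraMap (IsFractionRing.injective R K)
  have halgRL : Algebra.IsAlgebraic R L :=
    have := Module.IsTorsionFree.trans_faithfulSMul R A L
    (IsFractionRing.isAlgebraic_iff' R A L).1 inferInstance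
  have halgKL : Algebra.IsAlgebraic K L := (IsFractionRing.comap_isAlgebraic_iff (A := R)).1 halgRL
  have hess : Algebra.EssFiniteType K L := by
    have h1 : Algebra.EssFiniteType A L := Algebra.EssFiniteType.of_isLocalization _ (nonZeroDivisors A)
    have h2 : Algebra.EssFiniteType R L := Algebra.EssFiniteType.comp R A L
    exact Algebra.EssFiniteType.of_comp R K L
  have hfd : FiniteDimensional K L := by
    obtain ⟨T, hT⟩ := IntermediateField.fg_top K L
    have h1 : FiniteDimensional K (IntermediateField.adjoin K (T : Set L)) :=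
      IntermediateField.finiteDimensional_adjoin fun x _ => Algebra.IsIntegral.isIntegral x
    rw [hT] at h1
    exact IntermediateField.topEquiv.toLinearEquiv.finiteDimensional
  obtain ⟨α, hα⟩ := Field.exists_primitive_element K L
  obtain ⟨x, y, hy, hxy⟩ := IsFractionRing.div_surjective (A := A) α
  obtain ⟨r, hr0, w, hw⟩ := (Algebra.IsAlgebraic.isAlgebraic (R := R) y).exists_nonzero_dvd hy
  obtain ⟨s, hs0, hs⟩ :=
    (Algebra.IsAlgebraic.isAlgebraic (R := R) (x * w)).exists_integral_multiple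
  have hyL : algebraMap A L y ≠ 0 := by
    intro h
    exact nonZeroDivisors.ne_zero hy (IsFractionRing.injective A L (by rw [h, map_zero]))
  obtain ⟨θ, hθ⟩ : ∃ θ : A, θ = s • (x * w) := ⟨_, rfl⟩
  rw [← hθ] at hs
  have hRK : Function.Injective (algebraMap R K) := IsFractionRing.injective R K
  have hθL : algebraMap A L θ = (algebraMap R K (s * r)) • α := by
    rw [hθ, Algebra.smul_def, map_mul, ← IsScalarTower.algebraMap_apply, map_mul, Algebra.smul_def,
      ← IsScalarTower.algebraMap_apply, map_mul, mul_assoc]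
    congr 1
    rw [IsScalarTower.algebraMap_apply R A L r, hw, ← hxy, map_mul]
    field_simp
  have hsr : algebraMap R K (s * r) ≠ 0 := by
    rw [map_ne_zero_iff _ hRK]
    exact mul_ne_zero hs0 hr0
  have htop : IntermediateField.adjoin K {algebraMap A L θ} = ⊤ := by
    rw [eq_top_iff, ← hα, IntermediateField.adjoin_simple_le_iff]
    have h1 : α = (algebraMap R K (s * r))⁻¹ • algebraMap A L θ := by
      rw [hθL, smul_smul, inv_mul_cancel₀ hsr, one_smul]
    rw [h1]
    exact IntermediateField.smul_mem _ (IntermediateField.mem_adjoin_simple_self K _)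
  have htop2 : Algebra.adjoin K {algebraMap A L θ} = ⊤ := by
    rw [← IntermediateField.adjoin_simple_toSubalgebra_of_isAlgebraic
      (Algebra.IsAlgebraic.isAlgebraic _), htop, IntermediateField.top_toSubalgebra]
  have hmin : minpoly K (algebraMap A L θ) = (minpoly R θ).map (algebraMap R K) :=
    minpoly.isIntegrallyClosed_eq_field_fractions K L hs
  have hsep : (minpoly K (algebraMap A L θ)).Separable := Algebra.IsSeparable.isSeparable K _
  refine ⟨θ, minpoly R θ, ?_⟩
  have hgen : ∀ a : A, ∃ b : R, b ≠ 0 ∧ ∃ G : R[X], b • a = aeval θ G := by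
    intro a
    have h1 : algebraMap A L a ∈ Algebra.adjoin K {algebraMap A L θ} := by
      rw [htop2]; exact Algebra.mem_top
    rw [Algebra.adjoin_singleton_eq_range_aeval] at h1
    obtain ⟨P, hP⟩ := h1
    obtain ⟨b, hb1, hb2⟩ := IsLocalization.integerNormalization_spec (nonZeroDivisors R) P
    refine ⟨b, nonZeroDivisors.ne_zero hb1, IsLocalization.integerNormalization (nonZeroDivisors R) P, ?_⟩
    apply IsFractionRing.injective A L
    have h2 : aeval (algebraMap A L θ) (b • P) = b • algebraMap A L a := by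
      rw [← hP, ← algebraMap_smul K b P, map_smul, algebraMap_smul]
      rfl
    rw [← aeval_algebraMap_apply, ← aeval_map_algebraMap K, hb2, h2]
    rw [Algebra.smul_def, Algebra.smul_def, map_mul, ← IsScalarTower.algebraMap_apply]
  choose b hb0 G hG using hgen
  refine ⟨∏ a ∈ S, b a, minpoly.aeval R θ, ?_, Finset.prod_ne_zero_iff.2 fun a _ => hb0 a, ?_, ?_⟩
  · intro h0
    have h9 : aeval (algebraMap A L θ) (minpoly K (algebraMap A L θ)) = 0 := minpoly.aeval K _
    refine hsep.aeval_derivative_ne_zero h9 ?_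
    rw [hmin, derivative_map, aeval_map_algebraMap, aeval_algebraMap_apply, h0, map_zero]
  · intro a ha
    refine ⟨C (∏ a ∈ S.erase a, b a) * G a, ?_⟩
    rw [map_mul, ← hG, aeval_C, ← Finset.prod_erase_mul _ _ ha, mul_smul, Algebra.smul_def]
  · intro F _ φ hφ z hz
    let φK : K →+* F := IsFractionRing.lift hφ
    let _ : Algebra K F := φK.toAlgebra
    let pb : PowerBasis K L := PowerBasis.ofAdjoinEqTop (Algebra.IsIntegral.isIntegral _) htop2
    have hz' : aeval z (minpoly K pb.gen) = 0 := by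
      rw [PowerBasis.ofAdjoinEqTop_gen, hmin, aeval_def, eval₂_map]
      rw [← hz]
      congr 1
      ext r
      exact IsLocalization.lift_eq _ r
    refine ⟨(pb.lift z hz' : L →+* F).comp (algebraMap A L), ?_, ?_, ?_⟩
    · exact (RingHom.injective (pb.lift z hz' : L →+* F)).comp (IsFractionRing.injective A L)
    · intro r
      change pb.lift z hz' (algebraMap A L (algebraMap R A r)) = φ r
      rw [← IsScalarTower.algebraMap_apply, IsScalarTower.algebraMap_apply R K L, AlgHom.commutes]
      exact IsLocalization.lift_eq _ r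
    · change pb.lift z hz' (algebraMap A L θ) = z
      have h3 : pb.gen = algebraMap A L θ := PowerBasis.ofAdjoinEqTop_gen _ _
      rw [← h3]
      exact pb.lift_gen z hz'


end

theorem map_ev2 {d : ℕ} {R S : Type*} [CommRing R] [CommRing S] (g : R →+* S)
    (F : Polynomial (MvPolynomial (Fin d) ℤ)) (x : Fin d → R) (y : R) :
    g (ev2 F x y) = ev2 F (fun i => g (x i)) (g y) := by
  unfold ev2
  rw [Polynomial.hom_eval₂]
  congr 1
  ext i
  · simp
  · simp

theorem toZMod_eq_zero {p : ℕ} [Fact p.Prime] (x : ℤ_[p]) : PadicInt.toZMod x = 0 ↔ ‖x‖ < 1 := by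
  rw [← PadicInt.mem_nonunits, ← IsLocalRing.mem_maximalIdeal, ← PadicInt.ker_toZMod,
    RingHom.mem_ker]

theorem isUnit_of_toZMod {p : ℕ} [Fact p.Prime] (x : ℤ_[p]) (h : PadicInt.toZMod x ≠ 0) :
    IsUnit x := by
  rw [PadicInt.isUnit_iff]
  rw [Ne, toZMod_eq_zero, not_lt] at h
  exact le_antisymm (PadicInt.norm_le_one x) h

theorem hensel_step {p : ℕ} [Fact p.Prime] {d : ℕ} (F : Polynomial (MvPolynomial (Fin d) ℤ))
    (τ : Fin d → ℤ_[p]) (c : Fin d → ZMod p) (hτ : ∀ i, PadicInt.toZMod (τ i) = c i) (z : ZMod p)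
    (h0 : ev2 F c z = 0) (h1 : ev2 (Polynomial.derivative F) c z ≠ 0) :
    ∃ w : ℤ_[p], ev2 F τ w = 0 := by
  let e : MvPolynomial (Fin d) ℤ →+* ℤ_[p] :=
    (MvPolynomial.aeval τ : MvPolynomial (Fin d) ℤ →ₐ[ℤ] ℤ_[p]).toRingHom
  let G : Polynomial ℤ_[p] := F.map e
  let a : ℤ_[p] := (z.val : ℤ_[p])
  have ha : PadicInt.toZMod a = z := by simp [a]
  have hG : ∀ t, Polynomial.aeval t G = ev2 F τ t := fun t => by
    rw [Polynomial.coe_aeval_eq_eval, ← Polynomial.eval₂_eq_eval_map]
    rfl
  have hG' : ∀ t, Polynomial.aeval t (Polynomial.derivative G) = ev2 (Polynomial.derivative F) τ t :=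
    fun t => by
      rw [Polynomial.coe_aeval_eq_eval, Polynomial.derivative_map, ← Polynomial.eval₂_eq_eval_map]
      rfl
  have hn : ‖Polynomial.aeval a G‖ < ‖Polynomial.aeval a (Polynomial.derivative G)‖ ^ 2 := by
    have h2 : ‖Polynomial.aeval a G‖ < 1 := by
      rw [← toZMod_eq_zero, hG, map_ev2]
      simp only [hτ, ha]
      exact h0
    have h3 : ‖Polynomial.aeval a (Polynomial.derivative G)‖ = 1 := by
      rw [← PadicInt.isUnit_iff]
      apply isUnit_of_toZMod
      rw [hG', map_ev2]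
      simp only [hτ, ha]
      exact h1
    rw [h3, one_pow]
    exact h2
  obtain ⟨w, hw, -⟩ := hensels_lemma hn
  exact ⟨w, by rw [← hG]; exact hw⟩

theorem alg_of_basis {A : Type*} [CommRing A] [IsDomain A] [CharZero A] {d : ℕ} (t : Fin d → A)
    (ht : IsTranscendenceBasis ℤ t) [alg : Algebra (MvPolynomial (Fin d) ℤ) A]
    (halg : algebraMap (MvPolynomial (Fin d) ℤ) A = (MvPolynomial.aeval t : _ →ₐ[ℤ] A).toRingHom) :
    Algebra.IsAlgebraic (MvPolynomial (Fin d) ℤ) A := by
  have h1 : Algebra.IsAlgebraic (Algebra.adjoin ℤ (Set.range t)) A := ht.isAlgebraic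
  refine Algebra.IsAlgebraic.of_ringHom_of_comp_eq
    (ht.1.aevalEquiv : MvPolynomial (Fin d) ℤ ≃ₐ[ℤ] Algebra.adjoin ℤ (Set.range t)) (RingHom.id A)
    (AlgEquiv.surjective _) Function.injective_id ?_
  rw [halg]
  ext i <;> simp


end Pool.Agent.Y69.TK.Emb
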