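import Pool.Agent.Y69.WhDef

/-!
# The colimit of the groups `K₁(k[H])` over the finite subgroups `H` of a group

The groups `K₁(R)` and their functoriality are those of `Pool.Agent.Y69.WhDef`.
-/

namespace Pool.Agent.Y69.FJK

open Pool.Agent.Y69.FJ

noncomputable section

/-- The group `K₁(k[H])`. -/
def GK1 (k H : Type) [CommRing k] [Group H] : Type := K1 (MonoidAlgebra k H)

instance instGK1 (k H : Type) [CommRing k] [Group H] : AddCommGroup (GK1 k H) :=
  QuotientAddGroup.Quotient.addCommGroup (AddSubgroup.closure (K1Rel (MonoidAlgebra k H)))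

/-- The map `K₁(k[φ]) : K₁(k[H]) → K₁(k[K])` induced by a group homomorphism `φ : H → K`. -/
def GK1.map {k H K : Type} [CommRing k] [Group H] [Group K] (φ : H →* K) :
    GK1 k H →+ GK1 k K :=
  K1.map (MonoidAlgebra.mapDomainRingHom k φ)

/-- The set of the symbols `[H, x]`, for `H` a finite subgroup of `G` and `x ∈ K₁(k[H])`. -/
def Sym (k G : Type) [CommRing k] [Group G] : Type := Σ H : FinSub G, GK1 k H.1

/-- The symbol `[H, x]` as an element of the free abelian group on the symbols. -/
def sym {k G : Type} [CommRing k] [Group G] (H : FinSub G) (x : GK1 k H.1) :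
    FreeAbelianGroup (Sym k G) :=
  FreeAbelianGroup.of ⟨H, x⟩

/-- The relations of `colim K₁(k[H])`: the symbols `[H, x]` are additive in `x`, and
`[K, K₁(k[φ])(x)] = [H, x]` if `φ : H → K` is given by conjugation with an element of `G`. -/
def ColimRel (k G : Type) [CommRing k] [Group G] : Set (FreeAbelianGroup (Sym k G)) :=
  {z | (∃ (H : FinSub G) (x y : GK1 k H.1), z = sym H (x + y) - (sym H x + sym H y)) ∨
    ∃ (H K : FinSub G) (g : G) (φ : H.1 →* K.1) (x : GK1 k H.1),
      (∀ h : H.1, (φ h : G) = g * h * g⁻¹) ∧ z = sym K (GK1.map φ x) - sym H x}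

/-- `colim K₁(k[H])` over the finite subgroups `H` of `G`. -/
def ColimK1 (k G : Type) [CommRing k] [Group G] : Type :=
  FreeAbelianGroup (Sym k G) ⧸ AddSubgroup.closure (ColimRel k G)

instance instColimK1 (k G : Type) [CommRing k] [Group G] : AddCommGroup (ColimK1 k G) :=
  QuotientAddGroup.Quotient.addCommGroup (AddSubgroup.closure (ColimRel k G))

theorem GK1.compat {k G : Type} [CommRing k] [Group G] (H K : FinSub G) (g : G)
    (φ : H.1 →* K.1) (hφ : ∀ h : H.1, (φ h : G) = g * h * g⁻¹) (x : GK1 k H.1) :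
    GK1.map K.1.subtype (GK1.map φ x) = GK1.map H.1.subtype x :=
  K1_compat k g φ hφ x

/-- The homomorphism with `[H, x] ↦ K₁(k[i])(x)`, where `i : H → G` is the inclusion. -/
def assemblyPre (k G : Type) [CommRing k] [Group G] : FreeAbelianGroup (Sym k G) →+ GK1 k G :=
  FreeAbelianGroup.lift fun s => GK1.map s.1.1.subtype s.2

theorem assemblyPre_sym {k G : Type} [CommRing k] [Group G] (H : FinSub G) (x : GK1 k H.1) :
    assemblyPre k G (sym H x) = GK1.map H.1.subtype x :=
  FreeAbelianGroup.lift_apply_of _ _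

theorem assembly_aux (k G : Type) [CommRing k] [Group G] :
    AddSubgroup.closure (ColimRel k G) ≤ (assemblyPre k G).ker := by
  rw [AddSubgroup.closure_le]
  rintro x (⟨H, x, y, rfl⟩ | ⟨H, K, g, φ, x, hφ, rfl⟩)
  · show assemblyPre k G _ = 0
    rw [map_sub, map_add, assemblyPre_sym, assemblyPre_sym, assemblyPre_sym, map_add, sub_self]
  · show assemblyPre k G _ = 0
    rw [map_sub, assemblyPre_sym, assemblyPre_sym, sub_eq_zero]
    exact GK1.compat H K g φ hφ x

/-- The assembly map `colim K₁(k[H]) → K₁(k[G])`, `[H, x] ↦ K₁(k[i])(x)`, where `i : H → G` is the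
inclusion of the finite subgroup `H`. -/
def assembly (k G : Type) [CommRing k] [Group G] : ColimK1 k G →+ GK1 k G :=
  QuotientAddGroup.lift (AddSubgroup.closure (ColimRel k G)) (assemblyPre k G) (assembly_aux k G)

end

end Pool.Agent.Y69.FJK
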