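import Pool.Agent.H842R2.K1
import Pool.Agent.Y69.ColDef
import Pool.Agent.Y69.ColAsm

/-!
# `K₁` of finite products of fields and of the group algebra of a finite abelian group
-/

open Matrix

namespace Pool.Agent.Y69.TK.UnK

open H970SH H842 Pool.Agent.Y69

noncomputable section

section gen

variable (R : Type) [CommRing R]

theorem unit1_mul (u v : Rˣ) : unit1 (u * v) = unit1 u * unit1 v := by
  apply Units.ext
  ext i k
  rw [Units.val_mul, Matrix.mul_apply]
  simp [unit1]

theorem unit1_one : unit1 (1 : Rˣ) = 1 := by
  apply Units.ext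
  ext i k
  simp [unit1]

/-- the classes of units -/
def SU : AddSubgroup (K1 R) where
  carrier := {x | ∃ u : Rˣ, x = cl (unit1 u)}
  zero_mem' := ⟨1, by rw [unit1_one, cl_one]⟩
  add_mem' := by
    rintro _ _ ⟨u, rfl⟩ ⟨v, rfl⟩
    exact ⟨u * v, by rw [unit1_mul, cl_mul]⟩
  neg_mem' := by
    rintro _ ⟨u, rfl⟩
    refine ⟨u⁻¹, ?_⟩
    rw [neg_eq_iff_add_eq_zero, ← cl_mul, ← unit1_mul, mul_inv_cancel, unit1_one, cl_one]

variable {R} {n : Type} [Fintype n] [DecidableEq n]

/-- elementary matrices -/
theorem cl_elem (a b : n) (c : R) (U : (Matrix n n R)ˣ)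
    (hU : (U : Matrix n n R) = 1 + Matrix.single a b c) (V : (Matrix Unit Unit R)ˣ)
    (hV : (V : Matrix Unit Unit R) = 1 + Matrix.single () () (if a = b then c else 0)) :
    cl U = cl V := by
  apply cl_one_add_mul_comm (Matrix.single a () c) (Matrix.single () b (1 : R))
  · rw [hU, Matrix.single_mul_single_same, mul_one]
  · rw [hV]
    split_ifs with h
    · subst h
      rw [Matrix.single_mul_single_same, one_mul]
    · rw [Matrix.single_mul_single_of_ne _ _ _ _ (Ne.symm h), Matrix.single_zero]

theorem cl_transvec (a b : n) (hab : a ≠ b) (c : R) (U : (Matrix n n R)ˣ)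
    (hU : (U : Matrix n n R) = 1 + Matrix.single a b c) : cl U = 0 := by
  rw [cl_elem a b c U hU 1 (by rw [if_neg hab, Matrix.single_zero, add_zero]; rfl), cl_one]

theorem cl_diag_one (a : n) (d : Rˣ) (U : (Matrix n n R)ˣ)
    (hU : (U : Matrix n n R) = 1 + Matrix.single a a ((d : R) - 1)) : cl U = cl (unit1 d) := by
  apply cl_elem a a _ U hU
  rw [if_pos rfl]
  ext i k
  obtain rfl : i = () := rfl
  obtain rfl : k = () := rfl
  simp [unit1, Matrix.single]

theorem cl_diag (d : n → Rˣ) (U : (Matrix n n R)ˣ)
    (hU : (U : Matrix n n R) = diagonal fun a => (d a : R)) : cl U ∈ SU R := by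
  suffices h : ∀ (s : Finset n) (d : n → Rˣ), (∀ a ∉ s, d a = 1) → ∀ U : (Matrix n n R)ˣ,
      (U : Matrix n n R) = (diagonal fun a => (d a : R)) → cl U ∈ SU R from
    h Finset.univ d (fun a ha => absurd (Finset.mem_univ a) ha) U hU
  intro s
  induction s using Finset.induction_on with
  | empty =>
    intro d hd U hU
    have : U = 1 := by
      apply Units.ext
      rw [hU, Units.val_one, ← diagonal_one]
      congr 1
      funext a
      rw [hd a (Finset.notMem_empty a), Units.val_one]
    rw [this, cl_one]
    exact AddSubgroup.zero_mem _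
  | insert a s ha ih =>
    intro d hd U hU
    let d' : n → Rˣ := Function.update d a 1
    let D1 : (Matrix n n R)ˣ :=
      { val := diagonal fun b => (d' b : R)
        inv := diagonal fun b => (((d' b)⁻¹ : Rˣ) : R)
        val_inv := by rw [diagonal_mul_diagonal]; simp
        inv_val := by rw [diagonal_mul_diagonal]; simp }
    let e : n → Rˣ := Function.update (fun _ => 1) a (d a)
    let D2 : (Matrix n n R)ˣ :=
      { val := diagonal fun b => (e b : R)
        inv := diagonal fun b => (((e b)⁻¹ : Rˣ) : R)
        val_inv := by rw [diagonal_mul_diagonal]; simp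
        inv_val := by rw [diagonal_mul_diagonal]; simp }
    have h1 : U = D1 * D2 := by
      apply Units.ext
      rw [hU, Units.val_mul]
      show _ = diagonal _ * diagonal _
      rw [diagonal_mul_diagonal]
      congr 1
      funext b
      simp only [d', e]
      by_cases hb : b = a
      · subst hb; simp
      · simp [Function.update_of_ne hb]
    rw [h1, cl_mul]
    apply AddSubgroup.add_mem
    · apply ih d' _ D1 rfl
      intro b hb
      simp only [d']
      by_cases hb2 : b = a
      · subst hb2; simp
      · rw [Function.update_of_ne hb2]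
        exact hd b (by rw [Finset.mem_insert, not_or]; exact ⟨hb2, hb⟩)
    · rw [cl_diag_one a (d a) D2]
      · exact ⟨_, rfl⟩
      · show diagonal _ = _
        ext b c
        rw [Matrix.add_apply]
        by_cases hbc : b = c
        · subst hbc
          simp only [diagonal_apply_eq, one_apply_eq, e]
          by_cases hb : b = a
          · subst hb; simp
          · rw [Function.update_of_ne hb]
            rw [Matrix.single_apply_of_ne]
            · simp
            · intro h; exact hb h.1.symm
        · rw [diagonal_apply_ne _ hbc, one_apply_ne hbc, Matrix.single_apply_of_ne]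
          · simp
          · rintro ⟨rfl, rfl⟩; exact hbc rfl

end gen

section prod

variable {I : Type} [Finite I] [DecidableEq I] (F : I → Type) [∀ i, Field (F i)]
  {n : Type} [Fintype n] [DecidableEq n]

/-- a matrix in one factor -/
def eE (i : I) : Matrix n n (F i) →* Matrix n n (∀ i, F i) where
  toFun N := Matrix.of fun a b => Function.update (fun j => (1 : Matrix n n (F j)) a b) i (N a b)
  map_one' := by
    ext a b j
    rw [Matrix.of_apply]
    by_cases hj : j = i
    · subst hj
      rw [Function.update_self]
      by_cases hab : a = b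
      · subst hab; simp
      · simp [hab]
    · rw [Function.update_of_ne hj]
      by_cases hab : a = b
      · subst hab; simp
      · simp [hab]
  map_mul' := by
    intro M N
    ext a b j
    let f : Matrix n n (F i) → n → n → ∀ j, F j := fun N a b =>
      Function.update (fun j => (1 : Matrix n n (F j)) a b) i (N a b)
    have h1 : ((Matrix.of (f M) : Matrix n n (∀ i, F i)) * Matrix.of (f N)) a b j =
        ∑ c, f M a c j * f N c b j := by
      rw [Matrix.mul_apply, Finset.sum_apply]
      rfl
    show f (M * N) a b j = ((Matrix.of (f M) : Matrix n n (∀ i, F i)) * Matrix.of (f N)) a b j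
    rw [h1]
    by_cases hj : j = i
    · subst hj
      simp only [f, Function.update_self]
      exact Matrix.mul_apply
    · simp only [f, Function.update_of_ne hj]
      have h2 := congrFun (congrFun (Matrix.mul_one (1 : Matrix n n (F j))) a) b
      rw [Matrix.mul_apply] at h2
      exact h2.symm

theorem eE_apply (i : I) (N : Matrix n n (F i)) (a b : n) : eE F i N a b =
    Function.update (fun j => (1 : Matrix n n (F j)) a b) i (N a b) := rfl

theorem cl_eE (i : I) (N : Matrix n n (F i)) (hN : N.det ≠ 0) (U : (Matrix n n (∀ i, F i))ˣ)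
    (hU : (U : Matrix n n (∀ i, F i)) = eE F i N) : cl U ∈ SU (∀ i, F i) := by
  revert U
  apply diagonal_transvection_induction_of_det_ne_zero
    (fun N => ∀ U : (Matrix n n (∀ i, F i))ˣ, (U : Matrix n n (∀ i, F i)) = eE F i N →
      cl U ∈ SU (∀ i, F i)) N hN
  · intro D hD U hU
    rw [det_diagonal, Finset.prod_ne_zero_iff] at hD
    let d : n → (∀ i, F i)ˣ := fun a =>
      { val := Function.update (1 : ∀ i, F i) i (D a)
        inv := Function.update (1 : ∀ i, F i) i (D a)⁻¹
        val_inv := by
          funext j
          by_cases hj : j = i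
          · subst hj
            simp [mul_inv_cancel₀ (hD a (Finset.mem_univ a))]
          · simp [Function.update_of_ne hj]
        inv_val := by
          funext j
          by_cases hj : j = i
          · subst hj
            simp [inv_mul_cancel₀ (hD a (Finset.mem_univ a))]
          · simp [Function.update_of_ne hj] }
    apply cl_diag d U
    rw [hU]
    ext a b j
    rw [eE_apply]
    by_cases hab : a = b
    · subst hab
      rw [diagonal_apply_eq, diagonal_apply_eq]
      show _ = Function.update (1 : ∀ i, F i) i (D a) j
      by_cases hj : j = i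
      · subst hj; simp
      · simp [Function.update_of_ne hj]
    · rw [diagonal_apply_ne _ hab, diagonal_apply_ne _ hab]
      by_cases hj : j = i
      · subst hj; simp
      · rw [Function.update_of_ne hj, one_apply_ne hab]
        rfl
  · intro t U hU
    rw [cl_transvec t.i t.j t.hij (Function.update (0 : ∀ i, F i) i t.c) U]
    · exact AddSubgroup.zero_mem _
    · rw [hU]
      ext a b j
      rw [eE_apply, Matrix.add_apply, Pi.add_apply, TransvectionStruct.toMatrix, transvection,
        Matrix.add_apply]
      by_cases hj : j = i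
      · subst hj
        rw [Function.update_self]
        congr 1
        · by_cases hab : a = b
          · subst hab; simp
          · simp [hab]
        · simp only [Matrix.single, Matrix.of_apply]
          split_ifs
          · simp
          · rfl
      · rw [Function.update_of_ne hj]
        have h1 : (Matrix.single t.i t.j (Function.update (0 : ∀ i, F i) i t.c)) a b j = 0 := by
          simp only [Matrix.single, Matrix.of_apply]
          split_ifs
          · rw [Function.update_of_ne hj]; rfl
          · rfl
        rw [h1, add_zero]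
        by_cases hab : a = b
        · subst hab; simp
        · simp [hab]
  · intro A B hA hB ihA ihB U hU
    let A' : (Matrix n n (F i))ˣ := ((Matrix.isUnit_iff_isUnit_det A).2 (isUnit_iff_ne_zero.2 hA)).unit
    let B' : (Matrix n n (F i))ˣ := ((Matrix.isUnit_iff_isUnit_det B).2 (isUnit_iff_ne_zero.2 hB)).unit
    have h1 : U = Units.map (eE F i) A' * Units.map (eE F i) B' := by
      apply Units.ext
      rw [hU, map_mul]
      rfl
    rw [h1, cl_mul]
    exact AddSubgroup.add_mem _ (ihA _ rfl) (ihB _ rfl)

theorem cl_pi (U : (Matrix n n (∀ i, F i))ˣ) : cl U ∈ SU (∀ i, F i) := by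
  have := Fintype.ofFinite I
  let ev : ∀ i, (Matrix n n (∀ i, F i))ˣ →* (Matrix n n (F i))ˣ := fun i =>
    Units.map ((Pi.evalRingHom F i).mapMatrix : Matrix n n (∀ i, F i) →+* Matrix n n (F i)).toMonoidHom
  have hev : ∀ i (U : (Matrix n n (∀ i, F i))ˣ) a b, (ev i U : Matrix n n (F i)) a b =
      (U : Matrix n n (∀ i, F i)) a b i := fun _ _ _ _ => rfl
  suffices h : ∀ (s : Finset I) (U : (Matrix n n (∀ i, F i))ˣ), (∀ i ∉ s, ev i U = 1) →
      cl U ∈ SU (∀ i, F i) from
    h Finset.univ U (fun a ha => absurd (Finset.mem_univ a) ha)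
  intro s
  induction s using Finset.induction_on with
  | empty =>
    intro U hU
    have : U = 1 := by
      ext a b j
      rw [← hev, hU j (Finset.notMem_empty j)]
      by_cases hab : a = b
      · subst hab; simp
      · simp [hab]
    rw [this, cl_one]
    exact AddSubgroup.zero_mem _
  | insert i s hi ih =>
    intro U hU
    let V : (Matrix n n (∀ i, F i))ˣ := Units.map (eE F i) (ev i U)
    have hV : cl V ∈ SU (∀ i, F i) := by
      apply cl_eE F i (ev i U : Matrix n n (F i)) _ V rfl
      exact isUnit_iff_ne_zero.1 ((Matrix.isUnit_iff_isUnit_det _).1 (ev i U).isUnit)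
    have hVi : ev i V = ev i U := by
      ext a b
      rw [hev]
      show eE F i (ev i U : Matrix n n (F i)) a b i = _
      rw [eE_apply, Function.update_self]
    have hVj : ∀ j, j ≠ i → ev j V = 1 := by
      intro j hj
      ext a b
      rw [hev]
      show eE F i (ev i U : Matrix n n (F i)) a b j = _
      rw [eE_apply, Function.update_of_ne hj]
      rfl
    have h1 : U = (U * V⁻¹) * V := by rw [inv_mul_cancel_right]
    rw [h1, cl_mul]
    refine AddSubgroup.add_mem _ (ih _ ?_) hV
    intro j hj
    by_cases hji : j = i
    · subst hji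
      rw [map_mul, map_inv, hVi, mul_inv_cancel]
    · rw [map_mul, map_inv, hVj j hji, inv_one, mul_one]
      exact hU j (by rw [Finset.mem_insert, not_or]; exact ⟨hji, hj⟩)

theorem K1_pi (x : K1 (∀ i, F i)) : ∃ u : (∀ i, F i)ˣ, x = cl (unit1 u) := by
  obtain ⟨n, M, rfl⟩ := K1_exists x
  exact cl_pi F M

end prod

/-- transport along an isomorphism -/
theorem K1_of_equiv {R S : Type} [CommRing R] [CommRing S] (e : R ≃+* S)
    (h : ∀ x : K1 S, ∃ u : Sˣ, x = cl (unit1 u)) (x : K1 R) : ∃ u : Rˣ, x = cl (unit1 u) := by
  obtain ⟨u, hu⟩ := h (K1map (e : R →+* S) x)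
  refine ⟨Units.map (e.symm : S →+* R).toMonoidHom u, ?_⟩
  have h1 : K1map (e.symm : S →+* R) (K1map (e : R →+* S) x) = x := by
    obtain ⟨n, M, rfl⟩ := K1_exists x
    rw [K1map_cl, K1map_cl]
    congr 1
    apply Units.ext
    ext i j
    show e.symm (e _) = _
    rw [RingEquiv.symm_apply_apply]
  rw [← h1, hu, K1map_cl]
  rfl

/-- `K₁` of a commutative semisimple ring -/
theorem K1_semisimple (R : Type) [CommRing R] [IsSemisimpleRing R] (x : K1 R) :
    ∃ u : Rˣ, x = cl (unit1 u) := by
  classical
  let e : R ≃+* ∀ I : MaximalSpectrum R, R ⧸ I.asIdeal := (IsArtinianRing.equivPi R).toRingEquiv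
  let inst : ∀ I : MaximalSpectrum R, Field (R ⧸ I.asIdeal) := fun I => Ideal.Quotient.field I.asIdeal
  apply K1_of_equiv e _ x
  intro y
  exact K1_pi (fun I : MaximalSpectrum R => R ⧸ I.asIdeal) y

theorem K1_groupAlgebra (k : Type) [Field k] [CharZero k] (C : Type) [CommGroup C] [Finite C]
    (x : K1 (MonoidAlgebra k C)) : ∃ u : (MonoidAlgebra k C)ˣ, x = cl (unit1 u) := by
  have h1 : IsSemisimpleRing (MonoidAlgebra k C) := by
    have : NeZero (Nat.card C : k) := ⟨by exact_mod_cast Nat.card_pos.ne'⟩
    infer_instance
  exact K1_semisimple _ x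

end

end Pool.Agent.Y69.TK.UnK
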