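import Pool.Agent.Y69.TK.Dsc
import Pool.Agent.Y69.TK.ArtK
import Pool.Agent.Y69.TK.UnK
import Pool.Agent.Y69.TK.Emb2

/-!
# `colim K₁(k[H]) → K₁(k[G])` has torsion kernel, `k` a field of characteristic zero
-/

open Matrix

namespace Pool.Agent.Y69.TK.KMain

open H970SH H842 MonoidAlgebra Pool.Agent.Y69 Pool.Agent.Y69.Main Pool.Agent.Y69.TK.Dsc
  Pool.Agent.Y69.TK.UnK

noncomputable section

variable {G : Type} [Group G]

section cov

variable {k : Type} [CommRing k]

/-- classes of matrices over group rings of abelian groups -/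
theorem cov_commK
    (hU : ∀ (C : Type) [CommGroup C] [Finite C] (x : K1 (MonoidAlgebra k C)),
      ∃ u : (MonoidAlgebra k C)ˣ, x = cl (unit1 u))
    {H : FinSub G} {C : Type} [CommGroup C] [Finite C] (φ : C →* H.1)
    (hφ : Function.Injective φ) (x : K1 (MonoidAlgebra k C)) :
    Cov k (Colim.ι _ _ H (K1map (mapDomainRingHom k φ) x) : K1Colim k G) := by
  obtain ⟨u, hu⟩ := hU C x
  rw [hu, K1map_cl]
  have hinj : Function.Injective (H.1.subtype.comp φ) := Subtype.val_injective.comp hφ
  have h2 := Cov.sym k (H.1.subtype.comp φ) hinj (Additive.ofMul u)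
  -- the inclusion of the image
  have hmem : ∀ y : (rg (H.1.subtype.comp φ)).1, (y : G) ∈ H.1 := by
    rintro ⟨_, x, rfl⟩
    exact (φ x).2
  let θ : (rg (H.1.subtype.comp φ)).1 →* H.1 :=
    { toFun := fun y => ⟨(y : G), hmem y⟩
      map_one' := rfl
      map_mul' := fun y z => rfl }
  have h3 := Colim.ι_rel (G := G) (fun H => K1 (MonoidAlgebra k H))
    (fun φ => K1map (mapDomainRingHom k φ)) (rg (H.1.subtype.comp φ)) H 1 θ
    (fun y => by
      show (y : G) = 1 * (y : G) * 1⁻¹
      group)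
    (cl (mapUnit (mapDomainRingHom k (rrg (H.1.subtype.comp φ))) (unit1 u)))
  rw [sym_apply] at h2
  have h4 : θ.comp (rrg (H.1.subtype.comp φ)) = φ := by
    ext x
    rfl
  rw [K1map_cl, mapUnit_comp, h4] at h3
  rw [h3]
  exact h2

theorem cov_allK (hk : ∀ n : ℕ, 0 < n → IsUnit (n : k))
    (hU : ∀ (C : Type) [CommGroup C] [Finite C] (x : K1 (MonoidAlgebra k C)),
      ∃ u : (MonoidAlgebra k C)ˣ, x = cl (unit1 u)) (z : K1Colim k G) : Cov k z := by
  induction z using Colim.induction with
  | h0 => exact Cov.zero k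
  | hadd x y hx hy => exact Cov.add k hx hy
  | hneg x hx => exact Cov.neg k hx
  | hι H x =>
    have := H.2
    obtain ⟨m, hm, h1⟩ := ArtK.artin hk x
    apply Cov.of_nsmul k m hm
    have h2 : m • (Colim.ι _ _ H x : K1Colim k G) = Colim.ι _ _ H (m • x) :=
      ((Colim.ιHom (G := G) (fun H => K1 (MonoidAlgebra k H))
        (fun φ => K1map (mapDomainRingHom k φ)) H).map_nsmul m _).symm
    rw [h2]
    generalize m • x = y at h1 ⊢
    induction h1 using AddSubgroup.closure_induction with
    | mem y hy =>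
      obtain ⟨C, hC, n, M, rfl⟩ := hy
      rw [← K1map_cl]
      exact @cov_commK G _ k _ hU H C (IsCyclic.commGroup) _ C.subtype Subtype.val_injective (cl M)
    | zero =>
      have : (Colim.ι _ _ H (0 : K1 (MonoidAlgebra k H.1)) : K1Colim k G) = 0 :=
        (Colim.ιHom (G := G) (fun H => K1 (MonoidAlgebra k H))
          (fun φ => K1map (mapDomainRingHom k φ)) H).map_zero
      rw [this]
      exact Cov.zero k
    | add x y _ _ hx hy =>
      rw [Colim.ι_add]
      exact Cov.add k hx hy
    | neg x _ hx =>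
      have : (Colim.ι _ _ H (-x) : K1Colim k G) = - Colim.ι _ _ H x :=
        (Colim.ιHom (G := G) (fun H => K1 (MonoidAlgebra k H))
          (fun φ => K1map (mapDomainRingHom k φ)) H).map_neg x
      rw [this]
      exact Cov.neg k hx

end cov

/-- the abstract main theorem -/
theorem main_sys {k : Type} [CommRing k] (hk : ∀ n : ℕ, 0 < n → IsUnit (n : k))
    (hU : ∀ (C : Type) [CommGroup C] [Finite C] (x : K1 (MonoidAlgebra k C)),
      ∃ u : (MonoidAlgebra k C)ˣ, x = cl (unit1 u))
    (S : Sys k)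
    (hS : ∀ (s : Finset k) (E : ℕ), 0 < E → ∃ (p : ℕ) (_ : Fact p.Prime), 2 < p ∧ E ∣ p - 1 ∧
      ∃ ψ : S.A s →+* ℤ_[p], Function.Injective ψ)
    (x : K1Colim k G) (n : ℕ) (hn : 0 < n) (hx : n • K1assembly k G x = 0) :
    ∃ l : ℕ, 0 < l ∧ l • x = 0 := by
  obtain ⟨m, E, hm, hE, h1⟩ := cov_allK hk hU x
  obtain ⟨s, y, hy, hyx⟩ := (ev_SE S G h1).exists
  have h2 : K1map (inc S G s) (n • K1assembly (S.A s) G y) = 0 := by
    rw [map_nsmul]
    have h3 := assembly_cmap (S.inA s) y
    rw [hyx, map_nsmul] at h3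
    show n • K1map (mapRingHom G (S.inA s)) _ = 0
    rw [← h3, smul_smul, mul_comm, mul_smul, hx, smul_zero]
  obtain ⟨t, hst, ht⟩ := descend S G s _ h2
  obtain ⟨p, hp, hp2, hpE, ψ, hψ⟩ := hS t E hE
  have hodd : Odd p := hp.out.odd_of_ne_two (by omega)
  obtain ⟨T, hT⟩ := exists_TT (G := G) ψ hodd
  have h4 : n • cmap (S.inAA hst) y ∈ SE (S.A t) G (p - 1) :=
    AddSubgroup.nsmul_mem _ (SE_mono _ hpE (cmap_SE _ hy)) n
  obtain ⟨l, hl, h5⟩ := separation ψ hψ T (fun h hh => (hT h hh).1) h4 (by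
    intro h hh
    rw [map_nsmul, assembly_cmap, ← map_nsmul, ht, map_zero])
  have h6 := congrArg (cmap (S.inA t)) h5
  rw [map_nsmul, map_nsmul, map_zero, cmap_cmap, S.comp hst, hyx] at h6
  refine ⟨l * n * m, Nat.mul_pos (Nat.mul_pos hl hn) hm, ?_⟩
  rw [mul_smul, mul_smul]
  exact h6

section sys

variable (k : Type) [Field k]

/-- a finitely generated subring -/
def AX (s : Finset k) : Type := Subring.closure (s : Set k)

instance (s : Finset k) : CommRing (AX k s) :=
  inferInstanceAs (CommRing (Subring.closure (s : Set k)))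

/-- the inclusion -/
def inX (s : Finset k) : AX k s →+* k := (Subring.closure (s : Set k)).subtype

theorem inX_inj (s : Finset k) : Function.Injective (inX k s) := Subtype.val_injective

theorem inX_mem (s : Finset k) (c : k) (hc : c ∈ s) : ∃ a, inX k s a = c :=
  ⟨⟨c, Subring.subset_closure (Finset.mem_coe.2 hc)⟩, rfl⟩

theorem inX_mem2 {s t : Finset k} (h : s ≤ t) (x : AX k s) : ∃ y : AX k t, inX k t y = inX k s x :=
  ⟨⟨x.1, Subring.closure_mono (Finset.coe_subset.2 h) x.2⟩, rfl⟩

end sys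

/-- factorization through a subring -/
def fac {A B C : Type} [CommRing A] [CommRing B] [CommRing C] (f : A →+* C) (g : B →+* C)
    (hg : Function.Injective g) (h : ∀ x, ∃ y, g y = f x) : A →+* B where
  toFun x := (h x).choose
  map_one' := hg (by rw [(h 1).choose_spec, map_one, map_one])
  map_mul' x y := hg (by
    rw [(h _).choose_spec, map_mul, map_mul, (h x).choose_spec, (h y).choose_spec])
  map_zero' := hg (by rw [(h 0).choose_spec, map_zero, map_zero])
  map_add' x y := hg (by
    rw [(h _).choose_spec, map_add, map_add, (h x).choose_spec, (h y).choose_spec])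

theorem fac_comp {A B C : Type} [CommRing A] [CommRing B] [CommRing C] (f : A →+* C) (g : B →+* C)
    (hg : Function.Injective g) (h : ∀ x, ∃ y, g y = f x) : g.comp (fac f g hg h) = f :=
  RingHom.ext fun x => (h x).choose_spec

/-- the system of finitely generated subrings of a field -/
def fgSys (k : Type) [Field k] : Sys k where
  A s := AX k s
  ring s := inferInstance
  inA s := inX k s
  inj s := inX_inj k s
  mem s c hc := inX_mem k s c hc
  inAA {s t} h := fac (inX k s) (inX k t) (inX_inj k t) (inX_mem2 k h)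
  comp {s t} h := fac_comp (inX k s) (inX k t) (inX_inj k t) (inX_mem2 k h)

theorem fgSys_embed (k : Type) [Field k] [CharZero k] (s : Finset k) (E : ℕ) (hE : 0 < E) :
    ∃ (p : ℕ) (_ : Fact p.Prime), 2 < p ∧ E ∣ p - 1 ∧
      ∃ ψ : (fgSys k).A s →+* ℤ_[p], Function.Injective ψ := by
  have h1 : Algebra.FiniteType ℤ (Algebra.adjoin ℤ (s : Set k)) :=
    (Subalgebra.fg_iff_finiteType _).1 ⟨s, rfl⟩
  have h2 : CharZero (Algebra.adjoin ℤ (s : Set k)) := inferInstance
  obtain ⟨p, hp, hp2, hpE, ψ, hψ⟩ := Emb.exists_embedding (A := Algebra.adjoin ℤ (s : Set k)) E 2 hE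
  have h3 : Subring.closure (s : Set k) ≤ (Algebra.adjoin ℤ (s : Set k)).toSubring :=
    Subring.closure_le.2 Algebra.subset_adjoin
  let g : Algebra.adjoin ℤ (s : Set k) →+* k := (Algebra.adjoin ℤ (s : Set k)).val.toRingHom
  have hg : Function.Injective g := Subtype.val_injective
  have h4 : ∀ x : AX k s, ∃ y, g y = inX k s x := fun x => ⟨⟨x.1, h3 x.2⟩, rfl⟩
  let j : AX k s →+* Algebra.adjoin ℤ (s : Set k) := fac (inX k s) g hg h4
  have hj : Function.Injective j := by
    intro x y hxy
    apply inX_inj k s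
    rw [← (h4 x).choose_spec, ← (h4 y).choose_spec]
    exact congrArg g hxy
  exact ⟨p, hp, hp2, hpE, ψ.comp j, hψ.comp hj⟩

/-- **Theorem.** For every group `G` and every field `k` of characteristic zero, an element of
`colim K₁(k[H])` whose image in `K₁(k[G])` is torsion is torsion. -/
theorem main_field (k : Type) [Field k] [CharZero k] (x : K1Colim k G) (n : ℕ) (hn : 0 < n)
    (hx : n • K1assembly k G x = 0) : ∃ l : ℕ, 0 < l ∧ l • x = 0 :=
  main_sys (fun n hn => isUnit_iff_ne_zero.2 (by exact_mod_cast hn.ne'))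
    (fun C _ _ x => K1_groupAlgebra k C x) (fgSys k) (fgSys_embed k) x n hn hx

end

end Pool.Agent.Y69.TK.KMain
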