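import Pool.Agent.Y69.TK.KDef
import Pool.Agent.Y69.TK.KMain

/-!
# The main theorem for the groups of `KDef`
-/

namespace Pool.Agent.Y69.FJK

theorem main (k G : Type) [Field k] [CharZero k] [Group G] (x : ColimK1 k G) (n : ℕ) (hn : 0 < n)
    (hx : n • assembly k G x = 0) : ∃ l : ℕ, 0 < l ∧ l • x = 0 :=
  Pool.Agent.Y69.TK.KMain.main_field (G := G) k x n hn hx

end Pool.Agent.Y69.FJK
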